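import Mathlib
import Pool.Agent.H373R2.NB.WeylSum

/-!
Weyl sums of polynomials over residue classes: the mean square over the classes.
-/

set_option autoImplicit false

namespace Pool.Agent.Zk46.PV
open Finset Polynomial
open Pool.Agent.Helper602.MK (ee)
open Pool.Agent.Helper602.MK.N_J5b (ee_add ee_zero ee_conj norm_ee ee_int)
open Pool.Agent.H373R2.NB

/-- the inequality of van der Corput for one sequence -/
lemma sq_le_re (F : ℕ → ℂ) (N : ℕ) :
    ‖∑ n ∈ range N, F n‖ ^ 2 ≤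
      2 * (∑ h ∈ range N, ∑ n ∈ range (N - h), F (n + h) * (starRingEnd ℂ) (F n)).re := by
  have hA : ∀ N : ℕ, ‖∑ n ∈ range N, F n‖ ^ 2 =
      2 * (∑ n ∈ range N, ∑ m ∈ range (n + 1), F n * (starRingEnd ℂ) (F m)).re - ∑ n ∈ range N, ‖F n‖ ^ 2 := by
    intro N
    induction N with
    | zero => simp
    | succ N ih =>
      rw [sum_range_succ, sum_range_succ (fun n => ∑ m ∈ range (n + 1), F n * (starRingEnd ℂ) (F m)),
        sum_range_succ (fun n => ‖F n‖ ^ 2)]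
      have h1 : ∀ a b : ℂ, ‖a + b‖ ^ 2 = ‖a‖ ^ 2 + ‖b‖ ^ 2 + 2 * (b * (starRingEnd ℂ) a).re := by
        intro a b
        rw [← Complex.normSq_eq_norm_sq, ← Complex.normSq_eq_norm_sq, ← Complex.normSq_eq_norm_sq, Complex.normSq_add]
        have : (a * (starRingEnd ℂ) b).re = (b * (starRingEnd ℂ) a).re := by
          simp only [Complex.mul_re, Complex.conj_re, Complex.conj_im]; ring
        rw [this]
      rw [h1, ih, sum_range_succ, ← mul_sum, ← map_sum]
      have h2 : (F N * (starRingEnd ℂ) (F N)).re = ‖F N‖ ^ 2 := by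
        rw [Complex.mul_conj, Complex.normSq_eq_norm_sq, Complex.ofReal_re]
      simp only [Complex.add_re, h2]
      ring
  have hB : ∀ N : ℕ, ∑ n ∈ range N, ∑ m ∈ range (n + 1), F n * (starRingEnd ℂ) (F m) =
      ∑ h ∈ range N, ∑ n ∈ range (N - h), F (n + h) * (starRingEnd ℂ) (F n) := by
    intro N
    induction N with
    | zero => simp
    | succ N ih =>
      rw [sum_range_succ, ih]
      have h1 : ∀ h ∈ range (N + 1), ∑ n ∈ range (N + 1 - h), F (n + h) * (starRingEnd ℂ) (F n) =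
          ∑ n ∈ range (N - h), F (n + h) * (starRingEnd ℂ) (F n) + F N * (starRingEnd ℂ) (F (N - h)) := by
        intro h hh
        rw [mem_range] at hh
        rw [show N + 1 - h = (N - h) + 1 by omega, sum_range_succ, show N - h + h = N by omega]
      rw [sum_congr rfl h1, sum_add_distrib, sum_range_succ (fun h => ∑ n ∈ range (N - h), F (n + h) * (starRingEnd ℂ) (F n))]
      rw [Nat.sub_self, range_zero, sum_empty, add_zero]
      congr 1
      have h2 := sum_range_reflect (fun m => F N * (starRingEnd ℂ) (F m)) (N + 1)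
      rw [← h2]
      apply sum_congr rfl
      intro m _
      rw [show N + 1 - 1 - m = N - m by omega]
  rw [hA, hB]
  have h2 : (0 : ℝ) ≤ ∑ n ∈ range N, ‖F n‖ ^ 2 := sum_nonneg fun _ _ => by positivity
  linarith

/-- the inequality of van der Corput for a family of sequences -/
lemma vdc_fam {ι : Type} (H : Finset ι) (z : ι → ℕ → ℂ) (N : ℕ) :
    ∑ h ∈ H, ‖∑ n ∈ range N, z h n‖ ^ 2 ≤
      2 * ∑ j ∈ range N, ‖∑ h ∈ H, ∑ n ∈ range (N - j), z h (n + j) * (starRingEnd ℂ) (z h n)‖ := by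
  have h1 : ∑ h ∈ H, ‖∑ n ∈ range N, z h n‖ ^ 2 ≤
      ∑ h ∈ H, 2 * (∑ j ∈ range N, ∑ n ∈ range (N - j), z h (n + j) * (starRingEnd ℂ) (z h n)).re :=
    sum_le_sum fun h _ => sq_le_re (z h) N
  refine h1.trans ?_
  rw [← mul_sum, ← Complex.re_sum, sum_comm]
  refine mul_le_mul_of_nonneg_left ?_ (by norm_num)
  exact (Complex.re_le_norm _).trans (norm_sum_le _ _)

lemma sum_block {E : Type*} [AddCommMonoid E] (G : ℕ → E) (q m : ℕ) :
    ∑ h ∈ range q, ∑ k ∈ range m, G (h + q * k) = ∑ n ∈ range (q * m), G n := by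
  rw [sum_comm]
  induction m with
  | zero => simp
  | succ m ih =>
    rw [sum_range_succ, ih, mul_add, mul_one, sum_range_add]
    congr 1
    exact sum_congr rfl fun h _ => by rw [add_comm]

/-- **The mean square of the Weyl sums over the residue classes.** -/
theorem QW (d : ℕ) (hd : 1 ≤ d) : ∃ c m : ℕ, 1 ≤ c ∧ ∀ (K q : ℕ) (u α : ℝ) (φ : ℕ → ℝ), 1 ≤ q → 1 ≤ u →
    c * u ^ m ≤ K → Ph (d + 1) α φ →
    (q : ℝ) * K ^ 2 ≤ u ^ 2 * ∑ h ∈ range q, ‖∑ k ∈ range K, ee (φ (h + q * k))‖ ^ 2 →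
    ∃ r : ℕ, 1 ≤ r ∧ (r : ℝ) ≤ c * u ^ m ∧ ∃ a : ℤ, |r * (q * α) - a| ≤ c * u ^ m / (K * (q * K) ^ d) := by
  obtain ⟨c, m, hc, hI⟩ := IW_all d hd
  refine ⟨256 * c ^ 3 * 8 ^ (3 * m + d), 6 * m + 2 * d + 4, Nat.mul_pos (by positivity) (by positivity), ?_⟩
  intro K q u α φ hq hu hT hφ hS
  have hq0 : (0 : ℝ) < q := by exact_mod_cast hq
  have hq1 : (1 : ℝ) ≤ q := by exact_mod_cast hq
  have hc1 : (1 : ℝ) ≤ c := by exact_mod_cast hc
  have hu0 : 0 < u := by linarith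
  obtain ⟨Q, hQ⟩ : ∃ Q : ℝ, Q = c * (8 * u ^ 2) ^ m := ⟨_, rfl⟩
  have hu8 : 1 ≤ 8 * u ^ 2 := by nlinarith
  have hQ1 : 1 ≤ Q := by
    rw [hQ]; exact one_le_mul_of_one_le_of_one_le hc1 (one_le_pow₀ hu8)
  obtain ⟨D, hD⟩ : ∃ D : ℝ, D = 4 * u ^ 2 * Q := ⟨_, rfl⟩
  have hD1 : 1 ≤ D := by rw [hD]; nlinarith
  obtain ⟨P, hP⟩ : ∃ P : ℝ, P = (8 * u ^ 2) ^ d := ⟨_, rfl⟩
  have hP1 : 1 ≤ P := by rw [hP]; exact one_le_pow₀ hu8
  have hPu : 8 * u ^ 2 ≤ P := by rw [hP]; exact le_self_pow₀ hu8 (by omega)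
  obtain ⟨T, hTd⟩ : ∃ T : ℝ, T = 16 * Q * P * D ^ 2 := ⟨_, rfl⟩
  have hTeq : (((256 * c ^ 3 * 8 ^ (3 * m + d) : ℕ)) : ℝ) * u ^ (6 * m + 2 * d + 4) = T := by
    rw [hTd, hD, hP, hQ, mul_pow (8 : ℝ), mul_pow (8 : ℝ), ← pow_mul, ← pow_mul]
    push_cast
    rw [show 3 * m + d = m + m + m + d by ring, pow_add, pow_add, pow_add,
      show 6 * m + 2 * d + 4 = 2 * m + 2 * m + 2 * m + 2 * d + 4 by ring]
    rw [pow_add u, pow_add u, pow_add u, pow_add u]
    ring
  rw [hTeq] at hT ⊢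
  have hDsq : 1 ≤ D ^ 2 := one_le_pow₀ hD1
  have hQP : 1 ≤ Q * P := one_le_mul_of_one_le_of_one_le hQ1 hP1
  have hT16 : 16 ≤ T := by
    rw [hTd]
    have := one_le_mul_of_one_le_of_one_le hQP hDsq
    nlinarith
  have hT1 : 1 ≤ T := by linarith
  have hK0 : (0 : ℝ) < K := by linarith
  have hK1 : (1 : ℝ) ≤ K := by linarith
  have hKn : 1 ≤ K := by exact_mod_cast hK1
  have hqK0 : (0 : ℝ) < q * K := by positivity
  obtain ⟨Sh, hSh⟩ : ∃ Sh : ℕ → ℝ, ∀ j, Sh j = ‖∑ n ∈ range (q * (K - j)), ee (φ (n + q * j) - φ n)‖ :=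
    ⟨_, fun _ => rfl⟩
  have hSh_le : ∀ j, Sh j ≤ q * ((K - j : ℕ) : ℝ) := by
    intro j
    rw [hSh]
    calc ‖∑ n ∈ range (q * (K - j)), ee (φ (n + q * j) - φ n)‖ ≤
        ∑ n ∈ range (q * (K - j)), ‖ee (φ (n + q * j) - φ n)‖ := norm_sum_le _ _
      _ = _ := by simp [norm_ee]
  have hSh_leN : ∀ j, Sh j ≤ q * K := fun j => (hSh_le j).trans
    (mul_le_mul_of_nonneg_left (by exact_mod_cast Nat.sub_le K j) hq0.le)
  have hvdc : ∑ h ∈ range q, ‖∑ k ∈ range K, ee (φ (h + q * k))‖ ^ 2 ≤ 2 * ∑ j ∈ range K, Sh j := by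
    have h1 := vdc_fam (range q) (fun h k => ee (φ (h + q * k))) K
    refine h1.trans (le_of_eq ?_)
    congr 1
    apply sum_congr rfl
    intro j _
    rw [hSh]
    congr 1
    rw [← sum_block (fun n => ee (φ (n + q * j) - φ n)) q (K - j)]
    apply sum_congr rfl
    intro h _
    apply sum_congr rfl
    intro k _
    rw [ee_conj, ← ee_add, sub_eq_add_neg]
    congr 3
    ring_nf
  set H := (range K).filter (fun j => 1 ≤ j ∧ q * (K : ℝ) ≤ 8 * u ^ 2 * Sh j) with hH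
  have hTu : 8 * u ^ 2 ≤ T := by
    calc 8 * u ^ 2 ≤ P := hPu
      _ ≤ _ := by
        rw [hTd]
        have h2 : 1 ≤ Q * D ^ 2 := one_le_mul_of_one_le_of_one_le hQ1 hDsq
        nlinarith
  have hHcard : (K : ℝ) ≤ 4 * u ^ 2 * #H := by
    have h1 : (q : ℝ) * K ^ 2 ≤ u ^ 2 * (2 * ∑ j ∈ range K, Sh j) :=
      hS.trans (mul_le_mul_of_nonneg_left hvdc (by positivity))
    have h2 : ∑ j ∈ range K, Sh j ≤ q * K + #H * (q * K) + K * (q * K / (8 * u ^ 2)) := by
      calc ∑ j ∈ range K, Sh j ≤ ∑ j ∈ range K, ((if j = 0 then (q * K : ℝ) else 0) +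
            (if 1 ≤ j ∧ q * (K : ℝ) ≤ 8 * u ^ 2 * Sh j then (q * K : ℝ) else 0) + q * K / (8 * u ^ 2)) := by
            apply sum_le_sum
            intro j _
            have h3 := hSh_leN j
            have h4 : (0 : ℝ) ≤ q * K / (8 * u ^ 2) := by positivity
            rcases Nat.eq_zero_or_pos j with h0 | h0
            · rw [if_pos h0, if_neg (by omega)]; linarith
            · rw [if_neg (by omega)]
              by_cases h5 : q * (K : ℝ) ≤ 8 * u ^ 2 * Sh j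
              · rw [if_pos ⟨h0, h5⟩]; linarith
              · rw [if_neg (fun h6 => h5 h6.2)]
                push Not at h5
                have : Sh j ≤ q * K / (8 * u ^ 2) := by
                  rw [le_div_iff₀ (by positivity)]; linarith
                linarith
        _ = _ := by
            rw [sum_add_distrib, sum_add_distrib, sum_const, card_range, nsmul_eq_mul]
            congr 1
            congr 1
            · rw [sum_ite_eq' (range K) 0, if_pos (mem_range.2 hKn)]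
            · rw [← sum_filter, sum_const, nsmul_eq_mul]
    have h3 : (q : ℝ) * K ^ 2 ≤ 2 * u ^ 2 * (q * K) + 2 * u ^ 2 * (#H * (q * K)) + q * K ^ 2 / 4 := by
      calc (q : ℝ) * K ^ 2 ≤ u ^ 2 * (2 * (q * K + #H * (q * K) + K * (q * K / (8 * u ^ 2)))) :=
            h1.trans (mul_le_mul_of_nonneg_left (mul_le_mul_of_nonneg_left h2 (by norm_num)) (by positivity))
        _ = _ := by field_simp; ring
    have h4 : 2 * u ^ 2 * (q * K) ≤ q * K ^ 2 / 4 := by
      have : 8 * u ^ 2 ≤ K := hTu.trans hT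
      have h5 := mul_le_mul_of_nonneg_right this hqK0.le
      nlinarith
    have h5 : (K : ℝ) * (q * K) ≤ (4 * u ^ 2 * #H) * (q * K) := by nlinarith
    exact le_of_mul_le_mul_right h5 hqK0
  -- apply the induction hypothesis
  have hch : ∀ j : ℕ, ∃ r : ℕ, j ∈ H → 1 ≤ r ∧ (r : ℝ) ≤ Q ∧
      ∃ a : ℤ, |r * (j * (q * α)) - a| ≤ Q * P / ((q : ℝ) * K) ^ d := by
    intro j
    by_cases hh : j ∈ H
    · rw [hH, mem_filter, mem_range] at hh
      obtain ⟨hhN, hh1, hh2⟩ := hh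
      have h1 : Ph d (((q * j : ℕ) : ℝ) * α) (fun n => φ (n + q * j) - φ n) := hφ (q * j)
      have hNh : (K : ℝ) / (8 * u ^ 2) ≤ ((K - j : ℕ) : ℝ) := by
        rw [div_le_iff₀ (by positivity)]
        have h2 := hSh_le j
        have h3 : (q : ℝ) * K ≤ q * (((K - j : ℕ) : ℝ) * (8 * u ^ 2)) := by
          calc (q : ℝ) * K ≤ 8 * u ^ 2 * Sh j := hh2
            _ ≤ 8 * u ^ 2 * (q * ((K - j : ℕ) : ℝ)) := mul_le_mul_of_nonneg_left h2 (by positivity)
            _ = _ := by ring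
        exact le_of_mul_le_mul_left h3 hq0
      have hKj : 0 < K - j := by omega
      obtain ⟨r, hr1, hr2, a, ha⟩ := hI (q * (K - j)) (8 * u ^ 2) (((q * j : ℕ) : ℝ) * α) _
        (Nat.mul_pos hq hKj) hu8 h1
        (by
          have : ((q * (K - j) : ℕ) : ℝ) ≤ q * K := by
            push_cast
            exact mul_le_mul_of_nonneg_left (by exact_mod_cast Nat.sub_le K j) hq0.le
          rw [← hSh]
          exact this.trans hh2)
      refine ⟨r, fun _ => ⟨hr1, hr2.trans hQ.ge, a, ?_⟩⟩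
      have e : (r : ℝ) * (j * (q * α)) = r * (((q * j : ℕ) : ℝ) * α) := by push_cast; ring
      rw [e]
      refine ha.trans ?_
      have h5 : (0 : ℝ) < ((K - j : ℕ) : ℝ) := by exact_mod_cast hKj
      push_cast
      rw [← hQ, div_le_div_iff₀ (by positivity) (by positivity), mul_assoc Q]
      apply mul_le_mul_of_nonneg_left _ (by linarith)
      rw [hP, ← mul_pow]
      apply pow_le_pow_left₀ hqK0.le
      rw [div_le_iff₀ (by positivity)] at hNh
      have := mul_le_mul_of_nonneg_left hNh hq0.le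
      nlinarith
    · exact ⟨0, fun h' => absurd h' hh⟩
  choose qq hqq using hch
  obtain ⟨r, hr, hrc⟩ : ∃ r ∈ Icc 1 ⌊Q⌋₊, (#H : ℝ) ≤ Q * #(H.filter (fun h => qq h = r)) := by
    by_contra hcon
    push Not at hcon
    have h1 : #H = ∑ q ∈ Icc 1 ⌊Q⌋₊, #(H.filter (fun h => qq h = q)) :=
      card_eq_sum_card_fiberwise (fun h hh => by
        rw [mem_coe] at hh ⊢
        obtain ⟨a1, a2, _⟩ := hqq h hh
        exact mem_Icc.2 ⟨a1, Nat.le_floor a2⟩)
    have hQ0 : 0 < Q := by linarith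
    have hfl : (⌊Q⌋₊ : ℝ) ≤ Q := Nat.floor_le hQ0.le
    have hne : (Icc 1 ⌊Q⌋₊).Nonempty := ⟨1, mem_Icc.2 ⟨le_rfl, Nat.le_floor (by rw [Nat.cast_one]; exact hQ1)⟩⟩
    have h2 : Q * #H < Q * #H := by
      calc Q * #H = ∑ q ∈ Icc 1 ⌊Q⌋₊, Q * #(H.filter (fun h => qq h = q)) := by
            rw [← mul_sum]; congr 1; rw [h1]; push_cast; rfl
        _ < ∑ q ∈ Icc 1 ⌊Q⌋₊, (#H : ℝ) := sum_lt_sum_of_nonempty hne hcon
        _ = (⌊Q⌋₊ : ℝ) * #H := by rw [sum_const, Nat.card_Icc, nsmul_eq_mul, Nat.add_sub_cancel]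
        _ ≤ _ := mul_le_mul_of_nonneg_right hfl (Nat.cast_nonneg _)
    exact lt_irrefl _ h2
  rw [mem_Icc] at hr
  obtain ⟨ε, hε⟩ : ∃ ε : ℝ, ε = Q * P / ((q : ℝ) * K) ^ d := ⟨_, rfl⟩
  have hε0 : 0 ≤ ε := by rw [hε]; positivity
  have hqK1 : (1 : ℝ) ≤ q * K := one_le_mul_of_one_le_of_one_le hq1 hK1
  have hKd : (K : ℝ) ≤ ((q : ℝ) * K) ^ d := by
    calc (K : ℝ) ≤ q * K := by nlinarith
      _ ≤ _ := le_self_pow₀ hqK1 (by omega)
  have hDD : D ≤ D ^ 2 := le_self_pow₀ hD1 (by norm_num)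
  have hεD : 16 * ε * D ≤ 1 := by
    have h1 : 16 * ε * D = 16 * Q * P * D / ((q : ℝ) * K) ^ d := by rw [hε]; ring
    rw [h1, div_le_one (by positivity)]
    calc 16 * Q * P * D ≤ 16 * Q * P * D ^ 2 := mul_le_mul_of_nonneg_left hDD (by positivity)
      _ = T := hTd.symm
      _ ≤ K := hT
      _ ≤ _ := hKd
  have hND : 16 * D ^ 2 ≤ K := by
    refine le_trans ?_ hT
    rw [hTd]
    have : 0 ≤ D ^ 2 := by positivity
    nlinarith
  obtain ⟨q', hq'1, hq'2, a, ha⟩ := vinogradov (r * (q * α)) K D ε hD1 hε0 hεD hND (H.filter (fun h => qq h = r))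
    (by
      intro h hh
      rw [mem_filter] at hh
      have h1 := (mem_filter.1 hh.1).1
      rw [mem_range] at h1
      obtain ⟨_, _, b, hb⟩ := hqq h hh.1
      rw [hh.2] at hb
      refine ⟨h1, b, ?_⟩
      have e : (h : ℝ) * (r * (q * α)) = r * (h * (q * α)) := by ring
      rw [e, hε]; exact hb)
    (by
      calc (K : ℝ) ≤ 4 * u ^ 2 * #H := hHcard
        _ ≤ 4 * u ^ 2 * (Q * #(H.filter (fun h => qq h = r))) := mul_le_mul_of_nonneg_left hrc (by positivity)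
        _ = _ := by rw [hD]; ring)
  refine ⟨q' * r, Nat.mul_pos hq'1 hr.1, ?_, a, ?_⟩
  · have hqQ : (r : ℝ) ≤ Q := (Nat.cast_le.2 hr.2).trans (Nat.floor_le (by linarith))
    calc ((q' * r : ℕ) : ℝ) = q' * r := by push_cast; rfl
      _ ≤ (2 * D) * Q := mul_le_mul hq'2 hqQ (Nat.cast_nonneg _) (by positivity)
      _ ≤ T := by
        rw [hTd]
        have h1 : D * Q ≤ D ^ 2 * (Q * P) := by
          calc D * Q ≤ D ^ 2 * Q := mul_le_mul_of_nonneg_right hDD (by linarith)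
            _ ≤ D ^ 2 * (Q * P) := mul_le_mul_of_nonneg_left (by nlinarith) (by positivity)
        nlinarith [mul_pos (show 0 < D ^ 2 by positivity) (show 0 < Q * P by positivity)]
  · have e : ((q' * r : ℕ) : ℝ) * (q * α) = q' * (r * (q * α)) := by push_cast; ring
    rw [e]
    refine ha.trans (le_of_eq ?_)
    rw [hε, hTd]; field_simp

end Pool.Agent.Zk46.PV
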