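import Mathlib
import Pool.Agent.Zk46.PV.A1

/-!
The number of frequencies at which the mean square of the Weyl sums over the residue classes is large.
-/

set_option autoImplicit false

namespace Pool.Agent.Zk46.PV
open Finset Polynomial
open Pool.Agent.Helper602.MK (ee)
open Pool.Agent.Helper602.MK.N_J5b (ee_add ee_zero ee_conj norm_ee ee_int)
open Pool.Agent.H373R2.NB

lemma Ph_shift (d : ℕ) (α : ℝ) (x : ℕ) : ∀ (φ : ℕ → ℝ), Ph d α φ → Ph d α (fun n => φ (x + n)) := by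
  induction x with
  | zero => intro φ h; simpa using h
  | succ x ih =>
    intro φ h
    have h1 := ih _ (Ph_succ d α φ h)
    have h2 : (fun n => (fun n => φ (n + 1)) (x + n)) = fun n => φ (x + 1 + n) := by
      funext n
      show φ (x + n + 1) = φ (x + 1 + n)
      congr 1
      ring
    rw [h2] at h1
    exact h1

/-- **The number of large frequencies.** -/
theorem count_q (F : ℤ[X]) (d : ℕ) (hd : 1 ≤ d) (hF : F.natDegree = d + 1) (hl : 0 < F.leadingCoeff) (B : ℕ)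
    (hB : 1 ≤ B) : ∃ C m : ℕ, 1 ≤ C ∧ ∀ K q x M : ℕ, 1 ≤ q → 1 ≤ M → ∀ u : ℝ, 1 ≤ u → C * u ^ m ≤ K →
      (M : ℝ) ≤ B * (K * ((q : ℝ) * K) ^ d) →
      (#((range M).filter (fun s : ℕ => (q : ℝ) * K ^ 2 ≤ u ^ 2 * ∑ h ∈ range q,
        ‖∑ k ∈ range K, ee ((s : ℝ) / M / q * ((F.eval ((x + (h + q * k) : ℕ) : ℤ) : ℤ) : ℝ))‖ ^ 2)) : ℝ) ≤
        C * u ^ m := by
  obtain ⟨c, m, hc, hI⟩ := QW d hd
  obtain ⟨lc, hlc⟩ : ∃ lc : ℕ, F.leadingCoeff = lc := ⟨F.leadingCoeff.toNat, (Int.toNat_of_nonneg hl.le).symm⟩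
  have hlc1 : 1 ≤ lc := by
    rw [hlc] at hl; exact_mod_cast hl
  set A₀ : ℕ := (d + 1).factorial * lc with hA₀
  have hA1 : 1 ≤ A₀ := Nat.mul_pos (Nat.factorial_pos _) hlc1
  refine ⟨9 * (A₀ + 1) * B * c ^ 3, 3 * m, ?_, ?_⟩
  · have : 0 < 9 * (A₀ + 1) * B * c ^ 3 := by positivity
    exact this
  intro K q x M hq hM u hu hK hMx
  have hq0 : (0 : ℝ) < q := by exact_mod_cast hq
  have hM0 : (0 : ℝ) < M := by exact_mod_cast hM
  set E : ℝ := c * u ^ m with hE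
  have hc1 : (1 : ℝ) ≤ c := by exact_mod_cast hc
  have hE1 : 1 ≤ E := one_le_mul_of_one_le_of_one_le hc1 (one_le_pow₀ hu)
  have hA1r : (1 : ℝ) ≤ A₀ := by exact_mod_cast hA1
  have hB1r : (1 : ℝ) ≤ B := by exact_mod_cast hB
  have hCu : (((9 * (A₀ + 1) * B * c ^ 3 : ℕ)) : ℝ) * u ^ (3 * m) = (9 * (A₀ + 1) * B) * E ^ 3 := by
    rw [hE, mul_pow, ← pow_mul, mul_comm m 3]
    push_cast
    ring
  rw [hCu] at hK ⊢
  have hEK : E ≤ K := by
    refine le_trans ?_ hK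
    have h1 : E ≤ E ^ 3 := le_self_pow₀ hE1 (by norm_num)
    have h2 : (1 : ℝ) ≤ 9 * (A₀ + 1) * B := by nlinarith
    nlinarith [pow_pos (show 0 < E by linarith) 3]
  have hK1 : (1 : ℝ) ≤ K := hE1.trans hEK
  have hK0 : (0 : ℝ) < K := by linarith
  set Z : ℝ := K * ((q : ℝ) * K) ^ d with hZ
  have hZ1 : 1 ≤ Z := by
    rw [hZ]
    apply one_le_mul_of_one_le_of_one_le hK1
    apply one_le_pow₀
    apply one_le_mul_of_one_le_of_one_le _ hK1
    exact_mod_cast hq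
  have hZ0 : 0 < Z := by linarith
  set R : Finset (ℕ × ℤ × ℤ) := (Icc 1 ⌊E⌋₊) ×ˢ ((Icc (-(⌊E * (A₀ + 1)⌋₊ : ℤ)) ⌊E * (A₀ + 1)⌋₊) ×ˢ
    (Icc (-(⌊E * B⌋₊ : ℤ)) ⌊E * B⌋₊)) with hR
  set Φ : ℕ × ℤ × ℤ → ℕ := fun v => ((v.2.1 * M + v.2.2) / ((v.1 : ℤ) * A₀)).toNat with hΦ
  have hsub : (range M).filter (fun s : ℕ => (q : ℝ) * K ^ 2 ≤ u ^ 2 * ∑ h ∈ range q,
        ‖∑ k ∈ range K, ee ((s : ℝ) / M / q * ((F.eval ((x + (h + q * k) : ℕ) : ℤ) : ℤ) : ℝ))‖ ^ 2) ⊆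
      R.image Φ := by
    intro t ht
    rw [mem_filter, mem_range] at ht
    obtain ⟨htM, ht⟩ := ht
    have htr : (t : ℝ) < M := by exact_mod_cast htM
    have hph := Ph_shift _ _ x _ (Ph_poly (d + 1) F hF.le ((t : ℝ) / M / q))
    obtain ⟨r, hr1, hr2, a, ha⟩ := hI K q u _ _ hq hu hEK hph ht
    have hcoef : F.coeff (d + 1) = (lc : ℤ) := by rw [← hF, ← hlc]; rfl
    rw [hcoef] at ha
    have hr0 : (0 : ℝ) < r := by exact_mod_cast hr1
    have e1 : (r : ℝ) * (q * ((t : ℝ) / M / q * (((d + 1).factorial : ℝ) * ((lc : ℤ) : ℝ)))) = r * A₀ * t / M := by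
      rw [hA₀]; push_cast; field_simp
    rw [e1, ← hE, ← hZ] at ha
    set e : ℤ := (r : ℤ) * A₀ * t - a * M with he
    have heB : |(e : ℝ)| ≤ E * B := by
      have e2 : (e : ℝ) = (r * A₀ * t / M - a) * M := by
        rw [he]; push_cast; field_simp
      rw [e2, abs_mul, abs_of_pos hM0]
      calc |(r : ℝ) * A₀ * t / M - a| * M ≤ (E / Z) * (B * Z) := by
            apply mul_le_mul ha hMx hM0.le (by positivity)
        _ = E * B := by field_simp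
    have haB : |(a : ℝ)| ≤ E * (A₀ + 1) := by
      have h1 : |(r : ℝ) * A₀ * t / M| ≤ E * A₀ := by
        rw [abs_of_nonneg (by positivity), div_le_iff₀ hM0]
        calc (r : ℝ) * A₀ * t ≤ E * A₀ * M := by
              apply mul_le_mul _ htr.le (Nat.cast_nonneg _) (by positivity)
              exact mul_le_mul_of_nonneg_right hr2 (by positivity)
          _ = _ := by ring
      have h2 : E / Z ≤ E := div_le_self (by linarith) hZ1
      calc |(a : ℝ)| = |(r : ℝ) * A₀ * t / M - ((r : ℝ) * A₀ * t / M - a)| := by congr 1; ring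
        _ ≤ |(r : ℝ) * A₀ * t / M| + |(r : ℝ) * A₀ * t / M - a| := abs_sub _ _
        _ ≤ E * A₀ + E := add_le_add h1 (ha.trans h2)
        _ = _ := by ring
    rw [mem_image]
    refine ⟨(r, a, e), ?_, ?_⟩
    · rw [hR, mem_product, mem_product, mem_Icc, mem_Icc, mem_Icc]
      have natfl : ∀ (z : ℤ) (r : ℝ), |(z : ℝ)| ≤ r → -(⌊r⌋₊ : ℤ) ≤ z ∧ z ≤ ⌊r⌋₊ := by
        intro z r hz
        have h1 : z.natAbs ≤ ⌊r⌋₊ := by
          apply Nat.le_floor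
          rw [Nat.cast_natAbs, Int.cast_abs]
          exact hz
        omega
      exact ⟨⟨hr1, Nat.le_floor hr2⟩, natfl a _ haB, natfl e _ heB⟩
    · simp only [hΦ]
      have h1 : a * M + e = (t : ℤ) * ((r : ℤ) * A₀) := by rw [he]; ring
      rw [h1, Int.mul_ediv_cancel]
      · exact Int.toNat_natCast t
      · have : 0 < r * A₀ := Nat.mul_pos hr1 hA1
        exact_mod_cast this.ne'
  have hcard : #(R.image Φ) ≤ ⌊E⌋₊ * ((2 * ⌊E * (A₀ + 1)⌋₊ + 1) * (2 * ⌊E * B⌋₊ + 1)) := by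
    refine card_image_le.trans ?_
    rw [hR, card_product, card_product, Nat.card_Icc, Int.card_Icc, Int.card_Icc, Nat.add_sub_cancel]
    apply Nat.mul_le_mul_left
    apply Nat.mul_le_mul
    · omega
    · omega
  calc _ ≤ ((⌊E⌋₊ * ((2 * ⌊E * (A₀ + 1)⌋₊ + 1) * (2 * ⌊E * B⌋₊ + 1)) : ℕ) : ℝ) := by
        exact_mod_cast (card_le_card hsub).trans hcard
    _ = (⌊E⌋₊ : ℝ) * ((2 * ⌊E * (A₀ + 1)⌋₊ + 1) * (2 * ⌊E * B⌋₊ + 1)) := by push_cast; ring
    _ ≤ E * ((3 * (E * (A₀ + 1))) * (3 * (E * B))) := by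
        have h1 : (⌊E⌋₊ : ℝ) ≤ E := Nat.floor_le (by linarith)
        have h2 : (⌊E * (A₀ + 1)⌋₊ : ℝ) ≤ E * (A₀ + 1) := Nat.floor_le (by positivity)
        have h3 : (⌊E * B⌋₊ : ℝ) ≤ E * B := Nat.floor_le (by positivity)
        have h4 : 1 ≤ E * (A₀ + 1) := one_le_mul_of_one_le_of_one_le hE1 (by linarith)
        have h5 : 1 ≤ E * B := one_le_mul_of_one_le_of_one_le hE1 hB1r
        apply mul_le_mul h1 _ (by positivity) (by linarith)
        apply mul_le_mul (by linarith) (by linarith) (by positivity) (by positivity)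
    _ = _ := by ring

end Pool.Agent.Zk46.PV
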