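import Mathlib
import Pool.Agent.R311.DEH.A1

/-!
The mean square of a family of trigonometric polynomials with products as coefficients.
-/

set_option autoImplicit false

namespace Pool.Agent.Zk46.PV
open Finset
open Pool.Agent.H807R2.Dav (ee norm_ee ee_add ee_int ee_add_int)
open Pool.Agent.H373R2.T7 (conj_ee)

/-- the difference modulo `M` -/
def sg (M t u : ℕ) : ℕ := if t ≤ u then u - t else u + M - t

lemma sg_lt (M t u : ℕ) (ht : t < M) (hu : u < M) : sg M t u < M := by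
  unfold sg; split_ifs <;> omega

lemma ee_sg (M t u v : ℕ) (ht : t < M) (hu : u < M) :
    ee (((u : ℝ) - t) / M * v) = ee ((sg M t u : ℕ) / M * v) := by
  have hM0 : (M : ℝ) ≠ 0 := by exact_mod_cast (by omega : M ≠ 0)
  unfold sg
  split_ifs with h
  · rw [Nat.cast_sub h]
  · have e : (((u + M - t : ℕ) : ℝ) / M * v) = ((u : ℝ) - t) / M * v + ((v : ℤ) : ℝ) := by
      rw [Nat.cast_sub (by omega)]
      push_cast
      field_simp
      ring
    rw [e, ee_add_int]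

lemma sum_inj_le (M : ℕ) (S : Finset ℕ) (f : ℕ → ℕ) (hf : Set.InjOn f (range M : Finset ℕ)) (c : ℝ) (hc : 0 ≤ c) :
    ∑ u ∈ range M, (if f u ∈ S then c else 0) ≤ #S * c := by
  rw [← sum_filter, sum_const, nsmul_eq_mul]
  apply mul_le_mul_of_nonneg_right _ hc
  have h1 : #((range M).filter (fun u => f u ∈ S)) ≤ #S := by
    apply card_le_card_of_injOn f
    · intro u hu
      rw [mem_coe, mem_filter] at hu
      exact hu.2
    · intro a ha b hb hab
      rw [mem_coe, mem_filter] at ha hb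
      exact hf (mem_coe.2 ha.1) (mem_coe.2 hb.1) hab
  exact_mod_cast h1

theorem dual_fam {ι : Type} (H : Finset ι) (K M : ℕ) (v : ι → ℕ → ℕ) (A : ℕ → ℂ)
    (Bf : ι → ℕ → ℂ) (S : Finset ℕ) (δ κ : ℝ) (hκ : 0 ≤ κ) (hA : ∀ t ∈ range M, ‖A t‖ ≤ δ)
    (hS : ∀ s ∈ range M, s ∉ S → ∑ h ∈ H, ‖∑ k ∈ range K, ee ((s : ℝ) / M * v h k)‖ ^ 2 ≤ κ) :
    ∑ h ∈ H, ∑ k ∈ range K, ‖∑ t ∈ range M, (A t * Bf h t) * ee (-((t : ℝ) / M * v h k))‖ ^ 2 ≤
      K * #S * δ ^ 2 * ∑ h ∈ H, ∑ t ∈ range M, ‖Bf h t‖ ^ 2 +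
      √(∑ h ∈ H, (∑ t ∈ range M, ‖Bf h t‖ ^ 2) ^ 2) * ((∑ t ∈ range M, ‖A t‖ ^ 2) * √κ) := by
  classical
  obtain ⟨E, hE⟩ : ∃ E : ι → ℕ → ℝ, ∀ h s, E h s = ‖∑ k ∈ range K, ee ((s : ℝ) / M * v h k)‖ := ⟨_, fun _ _ => rfl⟩
  have hE0 : ∀ h s, 0 ≤ E h s := fun h s => by rw [hE]; exact norm_nonneg _
  have hEK : ∀ h s, E h s ≤ K := by
    intro h s
    rw [hE]
    refine (norm_sum_le _ _).trans ?_
    simp [norm_ee]
  -- expansion
  have hexp : ∀ h ∈ H, ∑ k ∈ range K, ‖∑ t ∈ range M, (A t * Bf h t) * ee (-((t : ℝ) / M * v h k))‖ ^ 2 ≤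
      ∑ t ∈ range M, ∑ u ∈ range M, ‖A t * Bf h t‖ * ‖A u * Bf h u‖ * E h (sg M t u) := by
    intro h _
    have hexp1 : ((∑ k ∈ range K, ‖∑ t ∈ range M, (A t * Bf h t) * ee (-((t : ℝ) / M * v h k))‖ ^ 2 : ℝ) : ℂ) =
        ∑ t ∈ range M, ∑ u ∈ range M, (A t * Bf h t) * (starRingEnd ℂ) (A u * Bf h u) *
          ∑ k ∈ range K, ee (((u : ℝ) - t) / M * v h k) := by
      push_cast
      have h1 : ∀ k ∈ range K, ((‖∑ t ∈ range M, (A t * Bf h t) * ee (-((t : ℝ) / M * v h k))‖ : ℂ)) ^ 2 =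
          ∑ t ∈ range M, ∑ u ∈ range M, (A t * Bf h t) * (starRingEnd ℂ) (A u * Bf h u) *
            ee (((u : ℝ) - t) / M * v h k) := by
        intro j _
        rw [← Complex.mul_conj', map_sum, sum_mul_sum]
        refine sum_congr rfl fun t _ => sum_congr rfl fun u _ => ?_
        rw [map_mul, conj_ee]
        have h2 : ee (((u : ℝ) - t) / M * v h j) = ee (-((t : ℝ) / M * v h j)) * ee (-(-((u : ℝ) / M * v h j))) := by
          rw [← ee_add]
          congr 1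
          ring
        rw [h2]
        ring
      rw [sum_congr rfl h1, sum_comm]
      refine sum_congr rfl fun t _ => ?_
      rw [sum_comm]
      refine sum_congr rfl fun u _ => ?_
      rw [mul_sum]
    have h0 : 0 ≤ ∑ k ∈ range K, ‖∑ t ∈ range M, (A t * Bf h t) * ee (-((t : ℝ) / M * v h k))‖ ^ 2 :=
      sum_nonneg fun _ _ => by positivity
    calc ∑ k ∈ range K, ‖∑ t ∈ range M, (A t * Bf h t) * ee (-((t : ℝ) / M * v h k))‖ ^ 2 =
        ‖((∑ k ∈ range K, ‖∑ t ∈ range M, (A t * Bf h t) * ee (-((t : ℝ) / M * v h k))‖ ^ 2 : ℝ) : ℂ)‖ := by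
          rw [Complex.norm_real, Real.norm_of_nonneg h0]
      _ ≤ _ := by
          rw [hexp1]
          refine (norm_sum_le _ _).trans (sum_le_sum fun t ht => (norm_sum_le _ _).trans (sum_le_sum fun u hu => ?_))
          rw [norm_mul, norm_mul, RCLike.norm_conj, hE]
          rw [mem_range] at ht hu
          refine mul_le_mul_of_nonneg_left (le_of_eq ?_) (by positivity)
          congr 1
          exact sum_congr rfl fun k _ => ee_sg M t u (v h k) ht hu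
  -- splitting
  have hsplit : ∀ h ∈ H, ∑ t ∈ range M, ∑ u ∈ range M, ‖A t * Bf h t‖ * ‖A u * Bf h u‖ * E h (sg M t u) ≤
      K * #S * δ ^ 2 * ∑ t ∈ range M, ‖Bf h t‖ ^ 2 +
      ∑ t ∈ range M, ∑ u ∈ range M, (‖Bf h t‖ * ‖Bf h u‖) *
        (if sg M t u ∈ S then 0 else ‖A t‖ * ‖A u‖ * E h (sg M t u)) := by
    intro h _
    have h1 : ∑ t ∈ range M, ∑ u ∈ range M, ‖A t * Bf h t‖ * ‖A u * Bf h u‖ * E h (sg M t u) ≤
        ∑ t ∈ range M, ∑ u ∈ range M, ((if sg M t u ∈ S then K * δ ^ 2 / 2 * ‖Bf h t‖ ^ 2 else 0) +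
          (if sg M t u ∈ S then K * δ ^ 2 / 2 * ‖Bf h u‖ ^ 2 else 0) + (‖Bf h t‖ * ‖Bf h u‖) *
        (if sg M t u ∈ S then 0 else ‖A t‖ * ‖A u‖ * E h (sg M t u))) := by
      refine sum_le_sum fun t ht => sum_le_sum fun u hu => ?_
      rw [norm_mul, norm_mul]
      split_ifs with hs
      · have a1 := hA t ht
        have a2 := hA u hu
        have a3 := hEK h (sg M t u)
        have a4 : ‖A t‖ * ‖A u‖ ≤ δ ^ 2 := by
          rw [sq]; exact mul_le_mul a1 a2 (norm_nonneg _) ((norm_nonneg _).trans a1)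
        have a5 : ‖Bf h t‖ * ‖Bf h u‖ ≤ (‖Bf h t‖ ^ 2 + ‖Bf h u‖ ^ 2) / 2 := by
          nlinarith [sq_nonneg (‖Bf h t‖ - ‖Bf h u‖)]
        calc ‖A t‖ * ‖Bf h t‖ * (‖A u‖ * ‖Bf h u‖) * E h (sg M t u) =
            (‖A t‖ * ‖A u‖) * (‖Bf h t‖ * ‖Bf h u‖) * E h (sg M t u) := by ring
          _ ≤ δ ^ 2 * ((‖Bf h t‖ ^ 2 + ‖Bf h u‖ ^ 2) / 2) * K := by
              apply mul_le_mul _ a3 (hE0 _ _) (by positivity)
              exact mul_le_mul a4 a5 (by positivity) (by positivity)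
          _ = _ := by ring
      · rw [zero_add, zero_add]
        exact le_of_eq (by ring)
    refine h1.trans ?_
    simp_rw [sum_add_distrib]
    have h2 : ∑ t ∈ range M, ∑ u ∈ range M, (if sg M t u ∈ S then K * δ ^ 2 / 2 * ‖Bf h t‖ ^ 2 else 0) ≤
        K * #S * δ ^ 2 / 2 * ∑ t ∈ range M, ‖Bf h t‖ ^ 2 := by
      rw [mul_sum]
      refine sum_le_sum fun t ht => ?_
      refine (sum_inj_le M S (fun u => sg M t u) ?_ _ (by positivity)).trans (le_of_eq (by ring))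
      intro a ha b hb hab
      rw [coe_range, Set.mem_Iio] at ha hb
      rw [mem_range] at ht
      dsimp only at hab
      unfold sg at hab
      split_ifs at hab <;> omega
    have h3 : ∑ t ∈ range M, ∑ u ∈ range M, (if sg M t u ∈ S then K * δ ^ 2 / 2 * ‖Bf h u‖ ^ 2 else 0) ≤
        K * #S * δ ^ 2 / 2 * ∑ t ∈ range M, ‖Bf h t‖ ^ 2 := by
      rw [sum_comm, mul_sum]
      refine sum_le_sum fun u hu => ?_
      refine (sum_inj_le M S (fun t => sg M t u) ?_ _ (by positivity)).trans (le_of_eq (by ring))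
      intro a ha b hb hab
      rw [coe_range, Set.mem_Iio] at ha hb
      rw [mem_range] at hu
      dsimp only at hab
      unfold sg at hab
      split_ifs at hab <;> omega
    linarith
  refine (sum_le_sum fun h hh => (hexp h hh).trans (hsplit h hh)).trans ?_
  rw [sum_add_distrib, ← mul_sum]
  refine add_le_add le_rfl ?_
  -- Cauchy's inequality
  have hcs := Real.sum_mul_le_sqrt_mul_sqrt (H ×ˢ (range M ×ˢ range M))
    (fun p => ‖Bf p.1 p.2.1‖ * ‖Bf p.1 p.2.2‖)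
    (fun p => if sg M p.2.1 p.2.2 ∈ S then 0 else ‖A p.2.1‖ * ‖A p.2.2‖ * E p.1 (sg M p.2.1 p.2.2))
  rw [sum_product, sum_product, sum_product] at hcs
  simp_rw [sum_product] at hcs
  refine hcs.trans ?_
  have e1 : ∑ h ∈ H, ∑ t ∈ range M, ∑ u ∈ range M, (‖Bf h t‖ * ‖Bf h u‖) ^ 2 =
      ∑ h ∈ H, (∑ t ∈ range M, ‖Bf h t‖ ^ 2) ^ 2 := by
    refine sum_congr rfl fun h _ => ?_
    rw [sq, sum_mul_sum]
    exact sum_congr rfl fun t _ => sum_congr rfl fun u _ => by ring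
  rw [e1]
  apply mul_le_mul_of_nonneg_left _ (Real.sqrt_nonneg _)
  have e2 : ∑ h ∈ H, ∑ t ∈ range M, ∑ u ∈ range M,
      (if sg M t u ∈ S then 0 else ‖A t‖ * ‖A u‖ * E h (sg M t u)) ^ 2 ≤ (∑ t ∈ range M, ‖A t‖ ^ 2) ^ 2 * κ := by
    rw [sum_comm]
    have e3 : ∀ t ∈ range M, ∑ h ∈ H, ∑ u ∈ range M,
        (if sg M t u ∈ S then 0 else ‖A t‖ * ‖A u‖ * E h (sg M t u)) ^ 2 ≤
        ‖A t‖ ^ 2 * ((∑ u ∈ range M, ‖A u‖ ^ 2) * κ) := by
      intro t ht
      rw [sum_comm, sum_mul, mul_sum]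
      refine sum_le_sum fun u hu => ?_
      rw [mem_range] at ht hu
      by_cases hs : sg M t u ∈ S
      · simp only [if_pos hs]
        have h : 0 ≤ ‖A t‖ ^ 2 * (‖A u‖ ^ 2 * κ) := by positivity
        simpa using h
      · simp only [if_neg hs]
        have h1 := hS (sg M t u) (mem_range.2 (sg_lt M t u ht hu)) hs
        simp_rw [mul_pow, ← mul_sum]
        rw [mul_assoc]
        apply mul_le_mul_of_nonneg_left _ (by positivity)
        apply mul_le_mul_of_nonneg_left _ (by positivity)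
        simpa only [hE] using h1
    refine (sum_le_sum e3).trans (le_of_eq ?_)
    rw [← sum_mul]
    ring
  calc _ ≤ √((∑ t ∈ range M, ‖A t‖ ^ 2) ^ 2 * κ) := Real.sqrt_le_sqrt e2
    _ = _ := by rw [Real.sqrt_mul (by positivity), Real.sqrt_sq (sum_nonneg fun _ _ => by positivity)]

end Pool.Agent.Zk46.PV
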