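import Mathlib
import Pool.Agent.Zk46.PV.A2
import Pool.Agent.Zk46.PV.A3
import Pool.Agent.N193.DE.T

/-!
The twisted sums over a progression as additive convolutions of the quotients.
-/

set_option autoImplicit false

namespace Pool.Agent.Zk46.PV
open Finset
open Pool.Agent.H807R2.Dav (ee norm_ee ee_add ee_int ee_add_int)
open Pool.Agent.H373R2.T7 (conj_ee orth parseval_Icc)
open Pool.Agent.R311.DEH (cv cv_fourier cv_eq g1 g2 Tq dl g_bound)
open Pool.Agent.N193.DE (inv_cv abs_g_le)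

/-- the sum over the progression as a convolution of the quotients -/
lemma Tq_conv (g : ℕ → ℝ) (q N : ℕ) (hq : 1 ≤ q) (hN : 1 ≤ N) :
    Tq g q N = ∑ w ∈ Ico 1 ((N - 1) / q + 1),
      ArithmeticFunction.vonMangoldt ((N - 1) % q + 1 + q * (w - 1)) * g (q * ((N - 1) / q + 1 - w)) := by
  unfold Tq
  obtain ⟨a, ha⟩ : ∃ a, a = (N - 1) / q := ⟨_, rfl⟩
  obtain ⟨b, hb⟩ : ∃ b, b = (N - 1) % q := ⟨_, rfl⟩
  have hN' : N = b + 1 + q * a := by
    have := Nat.div_add_mod (N - 1) q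
    rw [← ha, ← hb] at this
    omega
  have hbq : b < q := by rw [hb]; exact Nat.mod_lt _ hq
  rw [← ha, ← hb]
  symm
  apply sum_bij' (fun w _ => b + 1 + q * (w - 1)) (fun n _ => (n - 1) / q + 1)
  · intro w hw
    rw [mem_Ico] at hw
    rw [mem_filter, mem_Ico]
    have h1 : w - 1 < a := by omega
    have h2 : q * (w - 1) < q * a := Nat.mul_lt_mul_of_pos_left h1 hq
    refine ⟨⟨by omega, by omega⟩, ?_⟩
    have h3 : N = b + 1 + q * (w - 1) + q * (a - (w - 1)) := by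
      rw [add_assoc (b + 1), ← mul_add, Nat.add_sub_cancel' h1.le]
      exact hN'
    rw [h3]
    exact (Nat.modEq_iff_dvd' (by omega)).2 ⟨a - (w - 1), by omega⟩
  · intro n hn
    rw [mem_filter, mem_Ico] at hn
    obtain ⟨⟨h1, h2⟩, h3⟩ := hn
    rw [mem_Ico]
    refine ⟨Nat.le_add_left _ _, ?_⟩
    have h4 := (Nat.modEq_iff_dvd' h2.le).1 h3
    obtain ⟨c, hc⟩ := h4
    have hc0 : 1 ≤ c := by
      rcases Nat.eq_zero_or_pos c with h | h
      · rw [h, mul_zero] at hc; omega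
      · exact h
    have h5 : (n - 1) / q < a := by
      rw [Nat.div_lt_iff_lt_mul hq]
      have h6 : q * 1 ≤ q * c := Nat.mul_le_mul_left _ hc0
      have h7 : a * q = q * a := mul_comm _ _
      omega
    omega
  · intro w hw
    rw [mem_Ico] at hw
    have h1 : b + 1 + q * (w - 1) - 1 = b + q * (w - 1) := by omega
    rw [h1, Nat.add_mul_div_left _ _ hq, Nat.div_eq_of_lt hbq]
    omega
  · intro n hn
    rw [mem_filter, mem_Ico] at hn
    obtain ⟨⟨h1, h2⟩, h3⟩ := hn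
    have h4 : (n - 1) % q = b := by
      have h5 : n - 1 ≡ N - 1 [MOD q] := by
        have h6 : n - 1 + 1 ≡ N - 1 + 1 [MOD q] := by
          rw [Nat.sub_add_cancel h1, Nat.sub_add_cancel hN]
          exact h3
        exact Nat.ModEq.add_right_cancel' 1 h6
      rw [hb]
      exact h5
    have h7 := Nat.div_add_mod (n - 1) q
    rw [h4] at h7
    rw [Nat.add_sub_cancel]
    omega
  · intro w hw
    rw [mem_Ico] at hw
    congr 2
    have h1 : w - 1 < a := by omega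
    have h3 : q * a = q * (w - 1) + q * (a + 1 - w) := by
      rw [← mul_add]
      congr 1
      omega
    omega

/-- the bound for the exponential sums over the quotients -/
lemma quot_bound (U : ℕ) : ∃ Y0 : ℕ, 4 ≤ Y0 ∧ ∀ X q K : ℕ, 1 ≤ q → Y0 ≤ K → K ≤ X / q → ∀ g : ℕ → ℝ,
    (g = g1 ∨ g = g2) → ∀ α : ℝ,
    ‖∑ m ∈ Icc 1 (X / q), (g (q * m) : ℂ) * ee ((m : ℝ) * α)‖ ≤ dl U X q K := by
  obtain ⟨Y0, hY0, h⟩ := g_bound U
  refine ⟨Y0, hY0, fun X q K hq hK hKX g hg α => ?_⟩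
  have hq0 : (q : ℝ) ≠ 0 := by exact_mod_cast (by omega : q ≠ 0)
  have h1 := h X q K hq hK hKX g hg (α / q)
  refine le_trans (le_of_eq ?_) h1
  congr 1
  have e2 : ∑ m ∈ Icc 1 X, (if q ∣ m then (g m : ℂ) else 0) * ee ((m : ℝ) * (α / q)) =
      ∑ m ∈ (Icc 1 X).filter (fun m => q ∣ m), (g m : ℂ) * ee ((m : ℝ) * (α / q)) := by
    rw [sum_filter]
    apply sum_congr rfl
    intro m _
    split_ifs <;> simp
  rw [e2]
  apply sum_bij' (fun k _ => q * k) (fun m _ => m / q)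
  · intro k hk
    rw [mem_Icc] at hk
    rw [mem_filter, mem_Icc]
    refine ⟨⟨Nat.mul_pos hq hk.1, ?_⟩, Dvd.intro _ rfl⟩
    calc q * k ≤ q * (X / q) := Nat.mul_le_mul_left _ hk.2
      _ ≤ X := Nat.mul_div_le _ _
  · intro m hm
    rw [mem_filter, mem_Icc] at hm
    rw [mem_Icc]
    exact ⟨Nat.div_pos (Nat.le_of_dvd hm.1.1 hm.2) hq, Nat.div_le_div_right hm.1.2⟩
  · intro k _
    exact Nat.mul_div_cancel_left _ hq
  · intro m hm
    rw [mem_filter] at hm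
    exact Nat.mul_div_cancel' hm.2
  · intro k _
    congr 2
    push_cast
    field_simp

lemma a_sq (g : ℕ → ℝ) (hg : g = g1 ∨ g = g2) (X q : ℕ) (hq : 1 ≤ q) :
    ∑ m ∈ Icc 1 (X / q), ‖(g (q * m) : ℂ)‖ ^ 2 ≤ ((X / q : ℕ) : ℝ) * (1 + Real.log X) ^ 2 := by
  have h1 : ∀ m ∈ Icc 1 (X / q), ‖(g (q * m) : ℂ)‖ ^ 2 ≤ (1 + Real.log X) ^ 2 := by
    intro m hm
    rw [mem_Icc] at hm
    rw [Complex.norm_real, Real.norm_eq_abs]
    refine pow_le_pow_left₀ (abs_nonneg _) (abs_g_le g hg X (q * m) ?_) 2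
    rw [mem_Icc]
    exact ⟨Nat.mul_pos hq hm.1, (Nat.mul_le_mul_left _ hm.2).trans (Nat.mul_div_le _ _)⟩
  refine (sum_le_sum h1).trans ?_
  rw [sum_const, Nat.card_Icc, nsmul_eq_mul, Nat.add_sub_cancel]

lemma b_sq (X q r : ℕ) (hr : 1 ≤ r) (hrq : r ≤ q) :
    ∑ w ∈ Icc 1 (X / q), ‖((ArithmeticFunction.vonMangoldt (r + q * (w - 1)) : ℝ) : ℂ)‖ ^ 2 ≤
      ((X / q : ℕ) : ℝ) * (1 + Real.log X) ^ 2 := by
  have h1 : ∀ w ∈ Icc 1 (X / q), ‖((ArithmeticFunction.vonMangoldt (r + q * (w - 1)) : ℝ) : ℂ)‖ ^ 2 ≤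
      (1 + Real.log X) ^ 2 := by
    intro w hw
    rw [mem_Icc] at hw
    rw [Complex.norm_real, Real.norm_of_nonneg ArithmeticFunction.vonMangoldt_nonneg]
    have h2 : r + q * (w - 1) ≤ X := by
      calc r + q * (w - 1) ≤ q + q * (w - 1) := by omega
        _ = q * (w - 1 + 1) := by ring
        _ = q * w := by rw [Nat.sub_add_cancel hw.1]
        _ ≤ q * (X / q) := Nat.mul_le_mul_left _ hw.2
        _ ≤ X := Nat.mul_div_le _ _
    have hn0 : (0 : ℝ) < ((r + q * (w - 1) : ℕ) : ℝ) := by exact_mod_cast (by omega : 0 < r + q * (w - 1))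
    have h3 := Real.log_le_log hn0 (show ((r + q * (w - 1) : ℕ) : ℝ) ≤ X by exact_mod_cast h2)
    have h4 : ArithmeticFunction.vonMangoldt (r + q * (w - 1)) ≤ Real.log ((r + q * (w - 1) : ℕ) : ℝ) :=
      ArithmeticFunction.vonMangoldt_le_log
    apply pow_le_pow_left₀ ArithmeticFunction.vonMangoldt_nonneg
    linarith
  refine (sum_le_sum h1).trans ?_
  rw [sum_const, Nat.card_Icc, nsmul_eq_mul, Nat.add_sub_cancel]

/-- the Fourier transform -/
noncomputable def ft (Y M : ℕ) (a : ℕ → ℂ) (t : ℕ) : ℂ :=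
  ∑ m ∈ Icc 1 Y, a m * ee ((t : ℝ) * ((((1 : ℤ) * m : ℤ) : ℝ) / M))

/-- inversion for a convolution -/
lemma conv_ft (Y : ℕ) (a b : ℕ → ℂ) (τ : ℕ) (h1 : 1 ≤ τ) (hτ : τ ≤ Y) :
    ∑ w ∈ Ico 1 τ, b w * a (τ - w) = ∑ t ∈ range (2 * Y + 1),
      ((1 / ((2 * Y + 1 : ℕ) : ℂ) * ft Y (2 * Y + 1) a t) * ft Y (2 * Y + 1) b t) *
        ee (-((t : ℝ) / (2 * Y + 1 : ℕ) * τ)) := by
  rw [← cv_eq Y a b hτ, inv_cv Y a b τ (mem_Icc.2 ⟨h1, by omega⟩)]
  refine sum_congr rfl fun t _ => ?_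
  rw [cv_fourier]
  unfold ft
  ring

end Pool.Agent.Zk46.PV
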