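import Mathlib
import Pool.Agent.Zk46.PV.A4

/-!
The mean square of the twisted sums over the values of a polynomial, for one modulus.
-/

set_option autoImplicit false

namespace Pool.Agent.Zk46.PV
open Finset Polynomial
open Pool.Agent.H807R2.Dav (ee norm_ee ee_add ee_int ee_add_int)
open Pool.Agent.H373R2.T7 (conj_ee orth parseval_Icc)
open Pool.Agent.R311.DEH (cv cv_fourier cv_eq g1 g2 Tq dl g_bound)
open Pool.Agent.N193.DE (inv_cv abs_g_le)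

lemma ee_MK (x : ℝ) : Pool.Agent.Helper602.MK.ee x = ee x := by
  unfold Pool.Agent.Helper602.MK.ee ee
  congr 1
  ring

theorem per_q (F : ℤ[X]) (d : ℕ) (hd : 1 ≤ d) (hF : F.natDegree = d + 1) (hl : 0 < F.leadingCoeff) (B : ℕ)
    (hB : 1 ≤ B) : ∃ C m : ℕ, 1 ≤ C ∧ ∀ (D q x X K : ℕ) (c₀ : ℤ) (N : ℕ → ℕ) (u δ ℓ : ℝ) (g : ℕ → ℝ),
      (g = g1 ∨ g = g2) → 1 ≤ D → 1 ≤ q → q ≤ X → D * q ≤ x → K = x / (D * q) + 1 → ℓ = 1 + Real.log ((2 * X : ℕ) : ℝ) →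
      (∀ n, x < n → n ≤ 3 * x → 1 ≤ N n ∧ N n ≤ X ∧ (D : ℤ) * (N n : ℤ) = D * c₀ + F.eval (n : ℤ)) →
      1 ≤ u → C * u ^ m ≤ K → ((2 * (2 * X / q) + 1 : ℕ) : ℝ) ≤ B * (K * (((D * q : ℕ) : ℝ) * K) ^ d) →
      (∀ α : ℝ, ‖∑ j ∈ Icc 1 (2 * X / q), (g (q * j) : ℂ) * ee ((j : ℝ) * α)‖ ≤ δ) →
      ∑ n ∈ Ioc x (2 * x), |Tq g q (N n)| ^ 2 ≤
        2 * x * (C * u ^ m * (δ ^ 2 * ℓ ^ 2) + ((2 * X / q : ℕ) : ℝ) ^ 2 * ℓ ^ 4 / u) := by
  classical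
  obtain ⟨C, m, hC, hcount⟩ := count_q F d hd hF hl B hB
  refine ⟨C, m, hC, ?_⟩
  intro D q x X K c₀ N u δ ℓ g hg hD hq hqX hDq hK hℓ hN hu hCK hM hδ
  obtain ⟨q₁, hq₁⟩ : ∃ q₁, q₁ = D * q := ⟨_, rfl⟩
  rw [← hq₁] at hDq hK hM
  have hq₁1 : 1 ≤ q₁ := by rw [hq₁]; exact Nat.mul_pos hD hq
  obtain ⟨Y, hY⟩ : ∃ Y, Y = 2 * X / q := ⟨_, rfl⟩
  rw [← hY] at hM hδ ⊢
  obtain ⟨M, hMdef⟩ : ∃ M, M = 2 * Y + 1 := ⟨_, rfl⟩
  rw [← hMdef] at hM
  have hY2 : 2 ≤ Y := by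
    rw [hY, Nat.le_div_iff_mul_le hq]
    exact Nat.mul_le_mul_left _ hqX
  have hX1 : 1 ≤ X := hq.trans hqX
  have hq0 : (0 : ℝ) < q := by exact_mod_cast hq
  have hD0 : (0 : ℝ) < D := by exact_mod_cast hD
  have hq₁0 : (0 : ℝ) < q₁ := by exact_mod_cast hq₁1
  have hM0 : (0 : ℝ) < M := by exact_mod_cast (by omega : 0 < M)
  have hM1 : 1 ≤ M := by omega
  have hu0 : 0 < u := by linarith
  have hlog0 : 0 ≤ Real.log ((2 * X : ℕ) : ℝ) := Real.log_nonneg (by exact_mod_cast (by omega : 1 ≤ 2 * X))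
  have hℓ1 : 1 ≤ ℓ := by linarith
  have hδ0 : 0 ≤ δ := (norm_nonneg _).trans (hδ 0)
  -- the range of the variables
  have hqK1 : x < q₁ * K := by
    rw [hK, mul_add, mul_one]
    have := Nat.div_add_mod x q₁
    have := Nat.mod_lt x hq₁1
    omega
  have hqK2 : q₁ * K ≤ 2 * x := by
    rw [hK, mul_add, mul_one]
    have := Nat.mul_div_le x q₁
    omega
  have hrange : ∀ h k, h < q₁ → k < K → x < x + 1 + (h + q₁ * k) ∧ x + 1 + (h + q₁ * k) ≤ 3 * x := by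
    intro h k hh hk
    have h1 : q₁ * k + q₁ ≤ q₁ * K := by
      rw [← Nat.mul_succ]; exact Nat.mul_le_mul_left _ hk
    omega
  -- the residues
  obtain ⟨r, hr⟩ : ∃ r : ℕ → ℕ, ∀ h, r h = (N (x + 1 + h) - 1) % q + 1 := ⟨_, fun _ => rfl⟩
  have hres : ∀ h k, h < q₁ → k < K → (N (x + 1 + (h + q₁ * k)) - 1) % q + 1 = r h := by
    intro h k hh hk
    rw [hr]
    congr 1
    obtain ⟨a1, a2⟩ := hrange h k hh hk
    obtain ⟨b1, b2⟩ := hrange h 0 hh (by omega)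
    rw [mul_zero, add_zero] at b1 b2
    obtain ⟨c1, c2, c3⟩ := hN _ a1 a2
    obtain ⟨d1, d2, d3⟩ := hN _ b1 b2
    have e1 := Polynomial.sub_dvd_eval_sub ((x + 1 + (h + q₁ * k) : ℕ) : ℤ) ((x + 1 + h : ℕ) : ℤ) F
    have e2 : ((x + 1 + (h + q₁ * k) : ℕ) : ℤ) - ((x + 1 + h : ℕ) : ℤ) = D * (q * k) := by
      rw [hq₁]; push_cast; ring
    rw [e2] at e1
    obtain ⟨z, hz⟩ := e1
    have e3 : ((N (x + 1 + (h + q₁ * k)) : ℕ) : ℤ) - (N (x + 1 + h) : ℕ) = q * (k * z) := by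
      have hDz : (D : ℤ) ≠ 0 := by exact_mod_cast (by omega : D ≠ 0)
      apply mul_left_cancel₀ hDz
      rw [mul_sub, c3, d3]
      linear_combination hz
    have e4 : N (x + 1 + (h + q₁ * k)) - 1 ≡ N (x + 1 + h) - 1 [MOD q] := by
      rw [Nat.modEq_iff_dvd, Nat.cast_sub c1, Nat.cast_sub d1]
      refine ⟨-(k * z), ?_⟩
      push_cast
      push_cast at e3
      linarith
    exact e4
  obtain ⟨v, hv⟩ : ∃ v : ℕ → ℕ → ℕ, ∀ h k, v h k = (N (x + 1 + (h + q₁ * k)) - 1) / q + 1 := ⟨_, fun _ _ => rfl⟩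
  have hvr : ∀ h k, h < q₁ → k < K → (v h k : ℝ) = (N (x + 1 + (h + q₁ * k)) - (r h : ℝ)) / q + 1 := by
    intro h k hh hk
    obtain ⟨a1, a2⟩ := hrange h k hh hk
    obtain ⟨c1, c2, c3⟩ := hN _ a1 a2
    have h1 := Nat.div_add_mod (N (x + 1 + (h + q₁ * k)) - 1) q
    have h2 := hres h k hh hk
    have h3 : N (x + 1 + (h + q₁ * k)) = q * (v h k - 1) + r h := by
      rw [hv, Nat.add_sub_cancel, ← h2]
      omega
    have h4 : 1 ≤ v h k := by rw [hv]; exact Nat.le_add_left _ _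
    have h5 : (N (x + 1 + (h + q₁ * k)) : ℝ) = q * ((v h k : ℝ) - 1) + r h := by
      have h6 : ((v h k - 1 : ℕ) : ℝ) = (v h k : ℝ) - 1 := by rw [Nat.cast_sub h4, Nat.cast_one]
      rw [← h6]
      exact_mod_cast h3
    rw [h5]
    field_simp
    ring
  have hvY : ∀ h k, h < q₁ → k < K → 1 ≤ v h k ∧ v h k ≤ Y := by
    intro h k hh hk
    obtain ⟨a1, a2⟩ := hrange h k hh hk
    obtain ⟨c1, c2, c3⟩ := hN _ a1 a2
    rw [hv]
    refine ⟨Nat.le_add_left _ _, ?_⟩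
    rw [hY, ← Nat.add_div_right _ hq]
    exact Nat.div_le_div_right (by omega)
  -- the coefficients
  obtain ⟨a, ha⟩ : ∃ a : ℕ → ℂ, a = fun j => (g (q * j) : ℂ) := ⟨_, rfl⟩
  obtain ⟨b, hb⟩ : ∃ b : ℕ → ℕ → ℂ, b = fun h w => ((ArithmeticFunction.vonMangoldt (r h + q * (w - 1)) : ℝ) : ℂ) :=
    ⟨_, rfl⟩
  have hr1 : ∀ h, 1 ≤ r h := fun h => by rw [hr]; exact Nat.le_add_left _ _
  have hrq : ∀ h, r h ≤ q := fun h => by rw [hr]; exact Nat.mod_lt _ hq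
  have hT : ∀ h k, h < q₁ → k < K → |Tq g q (N (x + 1 + (h + q₁ * k)))| ^ 2 =
      ‖∑ t ∈ range M, ((1 / (M : ℂ) * ft Y M a t) * ft Y M (b h) t) * ee (-((t : ℝ) / M * v h k))‖ ^ 2 := by
    intro h k hh hk
    obtain ⟨a1, a2⟩ := hrange h k hh hk
    obtain ⟨c1, c2, c3⟩ := hN _ a1 a2
    obtain ⟨v1, v2⟩ := hvY h k hh hk
    have h1 := Tq_conv g q _ hq c1
    have h2 := conv_ft Y a (b h) (v h k) v1 v2
    rw [← hMdef] at h2
    rw [← h2, ← Real.norm_eq_abs, ← Complex.norm_real, h1, hres h k hh hk, ← hv]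
    congr 2
    push_cast
    rw [ha, hb]
  -- the exceptional frequencies
  obtain ⟨S, hS⟩ : ∃ S, S = (range M).filter (fun s : ℕ => (q₁ : ℝ) * K ^ 2 ≤ u ^ 2 * ∑ h ∈ range q₁,
        ‖∑ k ∈ range K, Pool.Agent.Helper602.MK.ee ((s : ℝ) / M / q₁ *
          ((F.eval ((x + 1 + (h + q₁ * k) : ℕ) : ℤ) : ℤ) : ℝ))‖ ^ 2) := ⟨_, rfl⟩
  have hScard : (#S : ℝ) ≤ C * u ^ m := by
    rw [hS]
    exact hcount K q₁ (x + 1) M hq₁1 hM1 u hu hCK hM
  have hphase : ∀ (s : ℕ) (h : ℕ), h < q₁ → ‖∑ k ∈ range K, ee ((s : ℝ) / M * v h k)‖ =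
      ‖∑ k ∈ range K, Pool.Agent.Helper602.MK.ee ((s : ℝ) / M / q₁ *
          ((F.eval ((x + 1 + (h + q₁ * k) : ℕ) : ℤ) : ℤ) : ℝ))‖ := by
    intro s h hh
    have h1 : ∑ k ∈ range K, ee ((s : ℝ) / M * v h k) = ee ((s : ℝ) / M * (((c₀ : ℝ) - r h) / q + 1)) *
        ∑ k ∈ range K, Pool.Agent.Helper602.MK.ee ((s : ℝ) / M / q₁ *
          ((F.eval ((x + 1 + (h + q₁ * k) : ℕ) : ℤ) : ℤ) : ℝ)) := by
      rw [mul_sum]
      refine sum_congr rfl fun k hk => ?_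
      rw [mem_range] at hk
      obtain ⟨a1, a2⟩ := hrange h k hh hk
      obtain ⟨c1, c2, c3⟩ := hN _ a1 a2
      rw [ee_MK, ← ee_add, hvr h k hh hk]
      congr 1
      have h2 : (D : ℝ) * (N (x + 1 + (h + q₁ * k)) : ℕ) = D * (c₀ : ℝ) +
          ((F.eval ((x + 1 + (h + q₁ * k) : ℕ) : ℤ) : ℤ) : ℝ) := by exact_mod_cast c3
      have h3 : ((F.eval ((x + 1 + (h + q₁ * k) : ℕ) : ℤ) : ℤ) : ℝ) =
          D * ((N (x + 1 + (h + q₁ * k)) : ℕ) - (c₀ : ℝ)) := by linarith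
      rw [h3, hq₁]
      push_cast
      field_simp
      ring
    rw [h1, norm_mul, norm_ee, one_mul]
  have hmain := dual_fam (range q₁) K M v (fun t => 1 / (M : ℂ) * ft Y M a t) (fun h t => ft Y M (b h) t) S (δ / M)
    ((q₁ : ℝ) * K ^ 2 / u ^ 2) (by positivity)
    (by
      intro t _
      rw [norm_mul, norm_div, norm_one, Complex.norm_natCast, one_div_mul_eq_div]
      apply div_le_div_of_nonneg_right _ hM0.le
      refine le_trans (le_of_eq ?_) (hδ ((t : ℝ) / M))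
      unfold ft
      congr 1
      rw [ha]
      refine sum_congr rfl fun j _ => ?_
      congr 2
      push_cast
      ring)
    (by
      intro s hs hsS
      rw [hS, mem_filter, not_and] at hsS
      have h1 := hsS hs
      push Not at h1
      rw [le_div_iff₀ (by positivity), mul_comm]
      refine le_trans (le_of_eq ?_) h1.le
      congr 1
      refine sum_congr rfl fun h hh => ?_
      rw [hphase s h (mem_range.1 hh)])
  -- the norms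
  obtain ⟨y, hy⟩ : ∃ y : ℝ, y = (Y : ℝ) * ℓ ^ 2 := ⟨_, rfl⟩
  have hY0 : (0 : ℝ) < Y := by exact_mod_cast (by omega : 0 < Y)
  have hy0 : 0 < y := by rw [hy]; positivity
  have hna : ∑ t ∈ range M, ‖1 / (M : ℂ) * ft Y M a t‖ ^ 2 ≤ y / M := by
    have h1 := parseval_Icc Y M hM1 (by omega) a 1 (Or.inl rfl)
    have h2 : ∑ t ∈ range M, ‖1 / (M : ℂ) * ft Y M a t‖ ^ 2 = (1 / M) ^ 2 * (M * ∑ j ∈ Icc 1 Y, ‖a j‖ ^ 2) := by
      rw [← h1, mul_sum]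
      refine sum_congr rfl fun t _ => ?_
      rw [norm_mul, norm_div, norm_one, Complex.norm_natCast, mul_pow]
      rfl
    rw [h2]
    have h3 := a_sq g hg (2 * X) q hq
    rw [← hℓ, ← hY, ← hy] at h3
    calc (1 / (M : ℝ)) ^ 2 * (M * ∑ j ∈ Icc 1 Y, ‖a j‖ ^ 2) = (∑ j ∈ Icc 1 Y, ‖a j‖ ^ 2) / M := by
          field_simp
      _ ≤ y / M := div_le_div_of_nonneg_right (by rw [ha]; exact h3) hM0.le
  have hnb : ∀ h, ∑ t ∈ range M, ‖ft Y M (b h) t‖ ^ 2 ≤ M * y := by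
    intro h
    have h1 := parseval_Icc Y M hM1 (by omega) (b h) 1 (Or.inl rfl)
    have h2 : ∑ t ∈ range M, ‖ft Y M (b h) t‖ ^ 2 = M * ∑ j ∈ Icc 1 Y, ‖b h j‖ ^ 2 := h1
    rw [h2]
    have h3 := b_sq (2 * X) q (r h) (hr1 h) (hrq h)
    rw [← hℓ, ← hY, ← hy] at h3
    exact mul_le_mul_of_nonneg_left (by rw [hb]; exact h3) hM0.le
  have hfirst : (K : ℝ) * #S * (δ / M) ^ 2 * ∑ h ∈ range q₁, ∑ t ∈ range M, ‖ft Y M (b h) t‖ ^ 2 ≤
      q₁ * K * (C * u ^ m * (δ ^ 2 * ℓ ^ 2)) := by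
    have h1 : ∑ h ∈ range q₁, ∑ t ∈ range M, ‖ft Y M (b h) t‖ ^ 2 ≤ q₁ * (M * y) := by
      refine (sum_le_sum fun h _ => hnb h).trans ?_
      rw [sum_const, card_range, nsmul_eq_mul]
    have h2 : y ≤ M * ℓ ^ 2 := by
      rw [hy]
      apply mul_le_mul_of_nonneg_right _ (by positivity)
      exact_mod_cast (by omega : Y ≤ M)
    calc (K : ℝ) * #S * (δ / M) ^ 2 * ∑ h ∈ range q₁, ∑ t ∈ range M, ‖ft Y M (b h) t‖ ^ 2 ≤
        (K : ℝ) * (C * u ^ m) * (δ / M) ^ 2 * (q₁ * (M * (M * ℓ ^ 2))) := by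
          apply mul_le_mul _ (h1.trans _) (sum_nonneg fun _ _ => sum_nonneg fun _ _ => by positivity) (by positivity)
          · apply mul_le_mul_of_nonneg_right _ (by positivity)
            exact mul_le_mul_of_nonneg_left hScard (Nat.cast_nonneg _)
          · apply mul_le_mul_of_nonneg_left _ hq₁0.le
            exact mul_le_mul_of_nonneg_left h2 hM0.le
      _ = _ := by field_simp
  have hsecond : √(∑ h ∈ range q₁, (∑ t ∈ range M, ‖ft Y M (b h) t‖ ^ 2) ^ 2) *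
      ((∑ t ∈ range M, ‖1 / (M : ℂ) * ft Y M a t‖ ^ 2) * √((q₁ : ℝ) * K ^ 2 / u ^ 2)) ≤
      q₁ * K * ((Y : ℝ) ^ 2 * ℓ ^ 4 / u) := by
    have h1 : ∑ h ∈ range q₁, (∑ t ∈ range M, ‖ft Y M (b h) t‖ ^ 2) ^ 2 ≤ q₁ * (M * y) ^ 2 := by
      calc ∑ h ∈ range q₁, (∑ t ∈ range M, ‖ft Y M (b h) t‖ ^ 2) ^ 2 ≤ ∑ h ∈ range q₁, (M * y) ^ 2 :=
            sum_le_sum fun h _ => pow_le_pow_left₀ (sum_nonneg fun _ _ => by positivity) (hnb h) 2
        _ = _ := by rw [sum_const, card_range, nsmul_eq_mul]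
    have h2 : √(∑ h ∈ range q₁, (∑ t ∈ range M, ‖ft Y M (b h) t‖ ^ 2) ^ 2) ≤ √(q₁ : ℝ) * (M * y) := by
      refine (Real.sqrt_le_sqrt h1).trans (le_of_eq ?_)
      rw [Real.sqrt_mul hq₁0.le, Real.sqrt_sq (by positivity)]
    have h3 : √((q₁ : ℝ) * K ^ 2 / u ^ 2) = √(q₁ : ℝ) * (K / u) := by
      rw [mul_div_assoc, ← div_pow, Real.sqrt_mul hq₁0.le, Real.sqrt_sq (by positivity)]
    rw [h3]
    calc _ ≤ (√(q₁ : ℝ) * (M * y)) * ((y / M) * (√(q₁ : ℝ) * (K / u))) := by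
          apply mul_le_mul h2 _ (by positivity) (by positivity)
          exact mul_le_mul_of_nonneg_right hna (by positivity)
      _ = (√(q₁ : ℝ) * √(q₁ : ℝ)) * K * (y ^ 2 / u) := by field_simp
      _ = _ := by rw [Real.mul_self_sqrt hq₁0.le, hy]; ring
  -- the sum over the interval
  have hsum : ∑ n ∈ Ioc x (2 * x), |Tq g q (N n)| ^ 2 ≤ ∑ h ∈ range q₁, ∑ k ∈ range K,
      ‖∑ t ∈ range M, ((1 / (M : ℂ) * ft Y M a t) * ft Y M (b h) t) * ee (-((t : ℝ) / M * v h k))‖ ^ 2 := by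
    have h1 : ∑ n ∈ Ioc x (2 * x), |Tq g q (N n)| ^ 2 ≤ ∑ i ∈ range (q₁ * K), |Tq g q (N (x + 1 + i))| ^ 2 := by
      have h2 : ∑ i ∈ range (q₁ * K), |Tq g q (N (x + 1 + i))| ^ 2 =
          ∑ n ∈ Ico (x + 1) (x + 1 + q₁ * K), |Tq g q (N n)| ^ 2 := by
        rw [sum_Ico_eq_sum_range]
        congr 2
        omega
      rw [h2]
      apply sum_le_sum_of_subset_of_nonneg
      · intro n hn
        rw [mem_Ioc] at hn
        rw [mem_Ico]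
        omega
      · intro _ _ _; positivity
    refine h1.trans (le_of_eq ?_)
    rw [← sum_block (fun i => |Tq g q (N (x + 1 + i))| ^ 2) q₁ K]
    refine sum_congr rfl fun h hh => sum_congr rfl fun k hk => ?_
    exact hT h k (mem_range.1 hh) (mem_range.1 hk)
  refine hsum.trans (hmain.trans ((add_le_add hfirst hsecond).trans ?_))
  rw [← mul_add]
  apply mul_le_mul_of_nonneg_right _ (by positivity)
  exact_mod_cast hqK2

end Pool.Agent.Zk46.PV
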