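import Mathlib
import Pool.Agent.Zk46.PV.A5

/-!
The twisted sums over the values of a polynomial, summed over the moduli.
-/

set_option autoImplicit false

namespace Pool.Agent.Zk46.PV
open Finset Polynomial
open Pool.Agent.R311.DEH
open Pool.Agent.N193.DE (DF)

theorem sum_P (F : ℤ[X]) (d : ℕ) (hd : 1 ≤ d) (hF : F.natDegree = d + 1) (hl : 0 < F.leadingCoeff) (B : ℕ)
    (hB : 1 ≤ B) : ∃ C m : ℕ, 1 ≤ C ∧ ∀ U : ℕ, ∃ Y0 : ℕ, 4 ≤ Y0 ∧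
      ∀ (D x X K₀ T Q e : ℕ) (c₀ : ℤ) (N : ℕ → ℕ) (ℓ : ℝ) (g : ℕ → ℝ),
      (g = g1 ∨ g = g2) → 1 ≤ D → 1 ≤ Q → Q ≤ X → D * Q ≤ x → Y0 ≤ K₀ → (∀ q ∈ Icc 1 Q, K₀ ≤ 2 * X / q) →
      1 ≤ T → T ^ 3 ≤ ct K₀ → ℓ = 1 + Real.log ((2 * X : ℕ) : ℝ) →
      (∀ n, x < n → n ≤ 3 * x → 1 ≤ N n ∧ N n ≤ X ∧ (D : ℤ) * (N n : ℤ) = D * c₀ + F.eval (n : ℤ)) →
      (C : ℝ) * (ℓ ^ (2 * e)) ^ m * (D * Q) ≤ x → 5 * D * (X : ℝ) ≤ B * (x : ℝ) ^ (d + 1) →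
      ∑ n ∈ Ioc x (2 * x), DF g Q (N n) ≤
        x * X * (64 * C * ℓ ^ (e * m + 8) * (2 ^ U / Real.log K₀ ^ U + 1 / T) + 8 * ℓ ^ 7 / ℓ ^ e) := by
  obtain ⟨C, m, hC, hper⟩ := per_q F d hd hF hl B hB
  refine ⟨C, m, hC, fun U => ?_⟩
  obtain ⟨Y0, hY0, hqb⟩ := quot_bound U
  refine ⟨Y0, hY0, ?_⟩
  intro D x X K₀ T Q e c₀ N ℓ g hg hD hQ1 hQX hDQ hK₀ hlev hT hTK hℓ hN hCx hXx
  have hX1 : 1 ≤ X := hQ1.trans hQX
  have hx1 : 1 ≤ x := (Nat.mul_pos hD hQ1).trans_le hDQ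
  have hX0 : (0 : ℝ) < X := by exact_mod_cast hX1
  have hx0 : (0 : ℝ) < x := by exact_mod_cast hx1
  have hD0 : (0 : ℝ) < D := by exact_mod_cast hD
  have hD1 : (1 : ℝ) ≤ D := by exact_mod_cast hD
  have hQ0 : (0 : ℝ) < Q := by exact_mod_cast hQ1
  have hC1 : (1 : ℝ) ≤ C := by exact_mod_cast hC
  have hB1 : (1 : ℝ) ≤ B := by exact_mod_cast hB
  have hTr : (1 : ℝ) ≤ T := by exact_mod_cast hT
  have hlog0 : 0 ≤ Real.log ((2 * X : ℕ) : ℝ) := Real.log_nonneg (by exact_mod_cast (by omega : 1 ≤ 2 * X))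
  have hℓ1 : 1 ≤ ℓ := by linarith
  have hℓ0 : 0 < ℓ := by linarith
  have hK₀4 : 4 ≤ K₀ := hY0.trans hK₀
  have hK₀r : (4 : ℝ) ≤ K₀ := by exact_mod_cast hK₀4
  have hlK : 0 < Real.log K₀ := Real.log_pos (by linarith)
  have h2X4 : 4 ≤ 2 * X := by
    have := hlev 1 (mem_Icc.2 ⟨le_rfl, hQ1⟩)
    rw [Nat.div_one] at this
    omega
  obtain ⟨Z, hZ⟩ : ∃ Z, Z = 2 ^ U / Real.log K₀ ^ U + 1 / (T : ℝ) := ⟨_, rfl⟩
  have hZ0 : 0 ≤ Z := by rw [hZ]; positivity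
  rw [← hZ]
  have hu1 : 1 ≤ ℓ ^ (2 * e) := one_le_pow₀ hℓ1
  -- one modulus
  have hone : ∀ q ∈ Icc 1 Q, ∑ n ∈ Ioc x (2 * x), |Tq g q (N n)| ≤
      2 * x * (C * ℓ ^ (e * m) * ℓ * dl U (2 * X) q K₀ + 2 * X * ℓ ^ 2 / ℓ ^ e * (1 / q)) := by
    intro q hq
    have hlevq := hlev q hq
    rw [mem_Icc] at hq
    have hq0 : (0 : ℝ) < q := by exact_mod_cast hq.1
    have hDq : D * q ≤ x := (Nat.mul_le_mul_left _ hq.2).trans hDQ
    have hdl := dl_nonneg U (2 * X) q K₀ (by omega) (by omega)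
    obtain ⟨K, hK⟩ : ∃ K, K = x / (D * q) + 1 := ⟨_, rfl⟩
    have hDq0 : (0 : ℝ) < ((D * q : ℕ) : ℝ) := by exact_mod_cast Nat.mul_pos hD hq.1
    have hKx : (x : ℝ) ≤ ((D * q : ℕ) : ℝ) * K := by
      have h1 : x ≤ (D * q) * K := by
        rw [hK, mul_add, mul_one]
        have := Nat.div_add_mod x (D * q)
        have := Nat.mod_lt x (Nat.mul_pos hD hq.1)
        omega
      exact_mod_cast h1
    have hKx' : (x : ℝ) / ((D * q : ℕ) : ℝ) ≤ K := by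
      rw [div_le_iff₀ hDq0]; linarith
    have hCK : (C : ℝ) * (ℓ ^ (2 * e)) ^ m ≤ K := by
      refine le_trans ?_ hKx'
      rw [le_div_iff₀ hDq0]
      refine le_trans ?_ hCx
      apply mul_le_mul_of_nonneg_left _ (by positivity)
      push_cast
      apply mul_le_mul_of_nonneg_left _ hD0.le
      exact_mod_cast hq.2
    have hMb : ((2 * (2 * X / q) + 1 : ℕ) : ℝ) ≤ B * (K * (((D * q : ℕ) : ℝ) * K) ^ d) := by
      have h1 : ((2 * (2 * X / q) + 1 : ℕ) : ℝ) ≤ 5 * X / q := by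
        have h2 : ((2 * X / q : ℕ) : ℝ) ≤ ((2 * X : ℕ) : ℝ) / q := Nat.cast_div_le
        have h3 : (1 : ℝ) ≤ X / q := by
          rw [le_div_iff₀ hq0, one_mul]; exact_mod_cast hq.2.trans hQX
        push_cast at h2 ⊢
        calc 2 * ((2 * X / q : ℕ) : ℝ) + 1 ≤ 2 * (2 * X / q) + X / q := by linarith
          _ = _ := by ring
      refine h1.trans ?_
      have h4 : 5 * (X : ℝ) / q ≤ B * (x : ℝ) ^ (d + 1) / (D * q) := by
        rw [div_le_div_iff₀ hq0 (by positivity)]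
        calc 5 * (X : ℝ) * (D * q) = (5 * D * X) * q := by ring
          _ ≤ _ := mul_le_mul_of_nonneg_right hXx hq0.le
      refine h4.trans ?_
      calc (B : ℝ) * (x : ℝ) ^ (d + 1) / (D * q) = B * ((x / ((D * q : ℕ) : ℝ)) * (x : ℝ) ^ d) := by
            push_cast; rw [pow_succ]; field_simp
        _ ≤ _ := by
            apply mul_le_mul_of_nonneg_left _ (by positivity)
            exact mul_le_mul hKx' (pow_le_pow_left₀ hx0.le hKx _) (by positivity) (Nat.cast_nonneg _)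
    have h1 := hper D q x X K c₀ N (ℓ ^ (2 * e)) (dl U (2 * X) q K₀) ℓ g hg hD hq.1 (hq.2.trans hQX) hDq hK hℓ hN
      hu1 hCK hMb (fun α => hqb (2 * X) q K₀ hq.1 hK₀ hlevq g hg α)
    obtain ⟨a1, ha1⟩ : ∃ a1 : ℝ, a1 = C * ℓ ^ (e * m) * ℓ * dl U (2 * X) q K₀ := ⟨_, rfl⟩
    obtain ⟨a2, ha2⟩ : ∃ a2 : ℝ, a2 = 2 * X * ℓ ^ 2 / ℓ ^ e * (1 / q) := ⟨_, rfl⟩
    rw [← ha1, ← ha2]
    have ha10 : 0 ≤ a1 := by rw [ha1]; positivity
    have ha20 : 0 ≤ a2 := by rw [ha2]; positivity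
    have h2 : (C : ℝ) * (ℓ ^ (2 * e)) ^ m * (dl U (2 * X) q K₀ ^ 2 * ℓ ^ 2) ≤ a1 ^ 2 := by
      have h3 : a1 ^ 2 = (C : ℝ) ^ 2 * (ℓ ^ (2 * e)) ^ m * (dl U (2 * X) q K₀ ^ 2 * ℓ ^ 2) := by
        rw [ha1, mul_pow, mul_pow, mul_pow, ← pow_mul, ← pow_mul, show e * m * 2 = 2 * e * m by ring]
        ring
      rw [h3]
      apply mul_le_mul_of_nonneg_right _ (by positivity)
      apply mul_le_mul_of_nonneg_right _ (by positivity)
      nlinarith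
    have h4 : ((2 * X / q : ℕ) : ℝ) ^ 2 * ℓ ^ 4 / ℓ ^ (2 * e) ≤ a2 ^ 2 := by
      have h5 : ((2 * X / q : ℕ) : ℝ) ≤ 2 * X / q := by
        have h2 : ((2 * X / q : ℕ) : ℝ) ≤ ((2 * X : ℕ) : ℝ) / q := Nat.cast_div_le
        push_cast at h2
        exact h2
      calc ((2 * X / q : ℕ) : ℝ) ^ 2 * ℓ ^ 4 / ℓ ^ (2 * e) ≤ (2 * X / q) ^ 2 * ℓ ^ 4 / ℓ ^ (2 * e) := by
            apply div_le_div_of_nonneg_right _ (by positivity)
            apply mul_le_mul_of_nonneg_right _ (by positivity)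
            exact pow_le_pow_left₀ (Nat.cast_nonneg _) h5 2
        _ = _ := by rw [ha2, pow_mul']; field_simp
    have h6 : ∑ n ∈ Ioc x (2 * x), |Tq g q (N n)| ^ 2 ≤ 2 * x * (a1 + a2) ^ 2 := by
      refine h1.trans (mul_le_mul_of_nonneg_left ?_ (by positivity))
      nlinarith [mul_nonneg ha10 ha20]
    have h7 : (∑ n ∈ Ioc x (2 * x), |Tq g q (N n)|) ^ 2 ≤ (2 * x * (a1 + a2)) ^ 2 := by
      refine (sq_sum_le_card_mul_sum_sq (s := Ioc x (2 * x)) (f := fun n => |Tq g q (N n)|)).trans ?_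
      have h8 : ((#(Ioc x (2 * x)) : ℕ) : ℝ) = x := by
        rw [Nat.card_Ioc]; congr 1; omega
      rw [h8]
      calc (x : ℝ) * ∑ n ∈ Ioc x (2 * x), |Tq g q (N n)| ^ 2 ≤ x * (2 * x * (a1 + a2) ^ 2) :=
            mul_le_mul_of_nonneg_left h6 hx0.le
        _ ≤ _ := by
            rw [mul_pow, mul_pow]
            have := sq_nonneg ((x : ℝ) * (a1 + a2))
            nlinarith
    exact le_of_sq_le_sq h7 (by positivity)
  -- all the moduli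
  have hdlsum : ∑ q ∈ Icc 1 Q, dl U (2 * X) q K₀ ≤ 16 * ℓ ^ 3 * X * Z := by
    have h1 := sum_dl U (2 * X) K₀ T h2X4 hK₀4 hT hTK
    rw [← hℓ, ← hZ] at h1
    have h2 : ∑ q ∈ Icc 1 Q, dl U (2 * X) q K₀ ≤ ∑ q ∈ Qs (2 * X) K₀, dl U (2 * X) q K₀ := by
      apply sum_le_sum_of_subset_of_nonneg
      · intro q hq
        have h1 := hlev q hq
        rw [mem_Icc] at hq
        rw [Qs, mem_filter, mem_Icc]
        exact ⟨⟨hq.1, by omega⟩, h1⟩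
      · intro q _ _
        exact dl_nonneg U (2 * X) q K₀ (by omega) (by omega)
    refine h2.trans (h1.trans (le_of_eq ?_))
    push_cast
    ring
  have hlQ : 1 + Real.log Q ≤ ℓ := by
    rw [hℓ]
    have : Real.log Q ≤ Real.log ((2 * X : ℕ) : ℝ) :=
      Real.log_le_log hQ0 (by exact_mod_cast (by omega : Q ≤ 2 * X))
    linarith
  obtain ⟨V, hV⟩ : ∃ V : ℝ, V = x * X * (32 * C * ℓ ^ (e * m + 4) * Z + 4 * ℓ ^ 3 / ℓ ^ e) := ⟨_, rfl⟩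
  have hV0 : 0 ≤ V := by rw [hV]; positivity
  have hs1 : ∑ q ∈ Icc 1 Q, ∑ n ∈ Ioc x (2 * x), |Tq g q (N n)| ≤ V := by
    refine (sum_le_sum hone).trans ?_
    rw [← mul_sum, sum_add_distrib, ← mul_sum, ← mul_sum]
    have h3 : ∑ q ∈ Icc 1 Q, 1 / (q : ℝ) ≤ ℓ := (harm_le Q).trans hlQ
    calc 2 * (x : ℝ) * (C * ℓ ^ (e * m) * ℓ * ∑ q ∈ Icc 1 Q, dl U (2 * X) q K₀ +
          2 * X * ℓ ^ 2 / ℓ ^ e * ∑ q ∈ Icc 1 Q, 1 / (q : ℝ)) ≤
        2 * x * (C * ℓ ^ (e * m) * ℓ * (16 * ℓ ^ 3 * X * Z) + 2 * X * ℓ ^ 2 / ℓ ^ e * ℓ) := by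
          apply mul_le_mul_of_nonneg_left _ (by positivity)
          apply add_le_add
          · exact mul_le_mul_of_nonneg_left hdlsum (by positivity)
          · exact mul_le_mul_of_nonneg_left h3 (by positivity)
      _ = V := by rw [hV, pow_add]; ring
  have h1sum : ∑ n ∈ Ioc x (2 * x), |Tq g 1 (N n)| ≤ V := by
    refine le_trans ?_ hs1
    exact single_le_sum (f := fun q => ∑ n ∈ Ioc x (2 * x), |Tq g q (N n)|)
      (fun q _ => sum_nonneg fun _ _ => abs_nonneg _) (mem_Icc.2 ⟨le_rfl, hQ1⟩)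
  have hphi : ∑ q ∈ Icc 1 Q, 1 / (Nat.totient q : ℝ) ≤ ℓ ^ 4 := by
    obtain hk := Pool.Agent.H398R2.BV.sum_card_pow_div
    have e1 : ∑ q ∈ Icc 1 Q, 1 / (Nat.totient q : ℝ) ≤ ∑ q ∈ Icc 1 (2 * X), 1 / (Nat.totient q : ℝ) :=
      sum_le_sum_of_subset_of_nonneg (Icc_subset_Icc le_rfl (by omega)) (fun _ _ _ => by positivity)
    refine e1.trans ?_
    have e2 : ∀ q ∈ Icc 1 (2 * X), 1 / (Nat.totient q : ℝ) ≤ (q.divisors.card : ℝ) ^ 1 / q := by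
      intro q hq
      rw [mem_Icc] at hq
      refine (Pool.Agent.H398R2.BV.one_div_totient_le q hq.1).trans ?_
      have hq0 : (0 : ℝ) < q := by exact_mod_cast hq.1
      apply div_le_div_of_nonneg_right _ hq0.le
      rw [pow_one]
      exact_mod_cast Pool.Agent.H398R2.BV.two_pow_omega_le q (by omega)
    refine (sum_le_sum e2).trans ?_
    have e3 := hk 1 (2 * X)
    refine e3.trans ?_
    rw [pow_one, hℓ]
    exact pow_le_pow_right₀ (by linarith) (by norm_num)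
  have hDF : ∑ n ∈ Ioc x (2 * x), DF g Q (N n) = ∑ q ∈ Icc 1 Q, ∑ n ∈ Ioc x (2 * x), |Tq g q (N n)| +
      (∑ q ∈ Icc 1 Q, 1 / (Nat.totient q : ℝ)) * ∑ n ∈ Ioc x (2 * x), |Tq g 1 (N n)| := by
    unfold DF
    rw [sum_comm, sum_mul, ← sum_add_distrib]
    refine sum_congr rfl fun q _ => ?_
    rw [mul_sum, ← sum_add_distrib]
  rw [hDF]
  have h0 : 0 ≤ ∑ n ∈ Ioc x (2 * x), |Tq g 1 (N n)| := sum_nonneg fun _ _ => abs_nonneg _
  calc _ ≤ V + ℓ ^ 4 * V := add_le_add hs1 (mul_le_mul hphi h1sum h0 (by positivity))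
    _ ≤ ℓ ^ 4 * V + ℓ ^ 4 * V := by
        have e1 : 1 ≤ ℓ ^ 4 := one_le_pow₀ hℓ1
        have := mul_le_mul_of_nonneg_right e1 hV0
        linarith
    _ = _ := by rw [hV, show e * m + 8 = e * m + 4 + 4 by ring, pow_add ℓ (e * m + 4) 4]; ring

end Pool.Agent.Zk46.PV
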