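import Mathlib
import Pool.Agent.Zk46.PV.A6
import Pool.Agent.N193.PS.Floor

/-!
Almost all values of a polynomial: the choice of the parameters.
-/

set_option autoImplicit false

namespace Pool.Agent.Zk46.PV
open Finset Polynomial Filter Topology
open Pool.Agent.R311.DEH
open Pool.Agent.N193.DE (DF D_le_DF)
open Pool.Agent.N193.PS (log_pow_ev)

open Classical in
theorem main_P (F : ℤ[X]) (d : ℕ) (hd : 1 ≤ d) (hF : F.natDegree = d + 1) (hl : 0 < F.leadingCoeff) (D : ℕ)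
    (hD : 1 ≤ D) (C₁ : ℕ) (hC₁ : 1 ≤ C₁) (θ : ℝ) (hθ : 0 < θ) (hθd : θ < 1 / ((d : ℝ) + 1)) (A B : ℕ) :
    ∃ x₀ : ℕ, ∀ x : ℕ, x₀ ≤ x → ∀ X : ℕ, x ^ (d + 1) ≤ C₁ * X → X ≤ C₁ * x ^ (d + 1) →
      ∀ (c₀ : ℤ) (N : ℕ → ℕ), (∀ n, x < n → n ≤ 3 * x → 1 ≤ N n ∧ N n ≤ X ∧ X ≤ C₁ * N n ∧
        (D : ℤ) * (N n : ℤ) = D * c₀ + F.eval (n : ℤ)) → ∀ g : ℕ → ℝ, (g = g1 ∨ g = g2) →
      (((Ioc x (2 * x)).filter fun n => (N n : ℝ) / Real.log (N n) ^ A <
        Pool.Agent.R311.DEH.D g (N n) ((N n : ℝ) ^ θ)).card : ℝ) ≤ x / Real.log x ^ B := by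
  have hd1 : (0 : ℝ) < (d : ℝ) + 1 := by positivity
  have hθ1 : θ < 1 := by
    refine hθd.trans_le ?_
    rw [div_le_one hd1]
    have : (0 : ℝ) ≤ d := Nat.cast_nonneg d
    linarith
  obtain ⟨C, m, hC, hsum⟩ := sum_P F d hd hF hl (5 * D * C₁) (Nat.mul_pos (by omega) (by omega))
  obtain ⟨e, he⟩ : ∃ e, e = A + B + 8 := ⟨_, rfl⟩
  obtain ⟨E, hE⟩ : ∃ E, E = e * m + 8 + (A + B + 1) := ⟨_, rfl⟩
  have hc : (0 : ℝ) < 1 / 2 := by norm_num
  obtain ⟨U, X1, hU⟩ := U_ex (1 / 2) hc E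
  obtain ⟨Y0, hY0, hmain⟩ := hsum U
  obtain ⟨X2, hK1⟩ := K_large (1 / 2) hc Y0
  obtain ⟨X3, hT⟩ := T_ex (1 / 2) hc E
  obtain ⟨ρ, hρ⟩ : ∃ ρ, ρ = 1 / ((d : ℝ) + 1) - θ := ⟨_, rfl⟩
  have hρ0 : 0 < ρ := by rw [hρ]; linarith
  have hC0 : (1 : ℝ) ≤ C := by exact_mod_cast hC
  have hD0 : (1 : ℝ) ≤ D := by exact_mod_cast hD
  have hC₁0 : (1 : ℝ) ≤ C₁ := by exact_mod_cast hC₁
  have hev : ∀ᶠ X : ℕ in atTop, 136 * C * C₁ ≤ 1 + Real.log X ∧ (1 / (1 - θ)) ^ 2 ≤ Real.log X ∧ 4 ≤ Real.log X ∧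
      (4 : ℝ) * C₁ ≤ X ∧ (C * D * (2 * C₁)) * (1 + Real.log X) ^ (2 * e * m) ≤ (X : ℝ) ^ ρ := by
    have e1 := Real.tendsto_log_atTop.eventually_ge_atTop ((136 : ℝ) * C * C₁)
    have e2 := Real.tendsto_log_atTop.eventually_ge_atTop ((1 / (1 - θ)) ^ 2)
    have e3 := Real.tendsto_log_atTop.eventually_ge_atTop (4 : ℝ)
    have e4 := eventually_ge_atTop ((4 : ℝ) * C₁)
    have e5 := log_pow_ev (2 * e * m) ((C : ℝ) * D * (2 * C₁)) ρ (by positivity) hρ0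
    have := (tendsto_natCast_atTop_atTop (R := ℝ)).eventually (e1.and (e2.and (e3.and (e4.and e5))))
    filter_upwards [this] with X hX
    exact ⟨by linarith [hX.1], hX.2⟩
  obtain ⟨X4, hX4⟩ := eventually_atTop.mp hev
  refine ⟨C₁ * (X1 + X2 + X3 + X4 + 1) + 1, fun x hx X hxX hXx c₀ N hN g hg => ?_⟩
  -- sizes
  have hx1 : 1 ≤ x := by omega
  have hxC : C₁ ≤ x := by
    have : C₁ * 1 ≤ C₁ * (X1 + X2 + X3 + X4 + 1) := Nat.mul_le_mul_left _ (by omega)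
    omega
  have hxX' : x * x ≤ C₁ * X := by
    refine le_trans ?_ hxX
    rw [← sq]
    exact Nat.pow_le_pow_right hx1 (by omega)
  have hX_ge : X1 + X2 + X3 + X4 + 1 ≤ X := by
    have h1 : C₁ * (X1 + X2 + X3 + X4 + 1) ≤ C₁ * X := by
      calc C₁ * (X1 + X2 + X3 + X4 + 1) ≤ x := by omega
        _ ≤ x * x := Nat.le_mul_of_pos_left _ hx1
        _ ≤ _ := hxX'
    exact Nat.le_of_mul_le_mul_left h1 (by omega)
  have hxleX : x ≤ X := by
    have h1 : C₁ * x ≤ C₁ * X := by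
      calc C₁ * x ≤ x * x := Nat.mul_le_mul_right _ hxC
        _ ≤ _ := hxX'
    exact Nat.le_of_mul_le_mul_left h1 (by omega)
  obtain ⟨y, hy⟩ : ∃ y, y = 2 * X := ⟨_, rfl⟩
  have a1 := hU y (by omega)
  have a2 := hK1 y (by omega)
  obtain ⟨T, hT1, hTct, hTge⟩ := hT y (by omega)
  obtain ⟨b1, b2, b3, b4, b5⟩ := hX4 y (by omega)
  have hX1 : 1 ≤ X := by omega
  have hXp : (0 : ℝ) < X := by exact_mod_cast hX1
  have hX1r : (1 : ℝ) ≤ X := by exact_mod_cast hX1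
  have hyp : (0 : ℝ) < y := by exact_mod_cast (by omega : 0 < y)
  have hyX : (y : ℝ) = 2 * X := by rw [hy]; push_cast; ring
  have hx0 : (0 : ℝ) < x := by exact_mod_cast hx1
  obtain ⟨L, hL⟩ : ∃ L, L = Real.log y := ⟨_, rfl⟩
  obtain ⟨ℓ, hℓ⟩ : ∃ ℓ, ℓ = 1 + L := ⟨_, rfl⟩
  rw [← hL] at b2 b3
  rw [← hL, ← hℓ] at b1 b5 a1 hTge
  have hℓ1 : 1 ≤ ℓ := by linarith
  have hℓ0 : 0 < ℓ := by linarith
  obtain ⟨Q, hQ⟩ : ∃ Q, Q = ⌊(X : ℝ) ^ θ⌋₊ := ⟨_, rfl⟩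
  have hXθ : (1 : ℝ) ≤ (X : ℝ) ^ θ := Real.one_le_rpow hX1r hθ.le
  have hQ1 : 1 ≤ Q := by rw [hQ]; exact Nat.le_floor (by exact_mod_cast hXθ)
  have hQle : (Q : ℝ) ≤ (X : ℝ) ^ θ := by rw [hQ]; exact Nat.floor_le (by positivity)
  have hQy : (Q : ℝ) ≤ (y : ℝ) ^ θ := hQle.trans (Real.rpow_le_rpow hXp.le (by rw [hyX]; linarith) hθ.le)
  have hQX : Q ≤ X := by
    have h1 : (X : ℝ) ^ θ ≤ (X : ℝ) ^ (1 : ℝ) := Real.rpow_le_rpow_of_exponent_le hX1r hθ1.le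
    rw [Real.rpow_one] at h1
    exact_mod_cast hQle.trans h1
  -- the level
  have hlev : ∀ q ∈ Icc 1 Q, KK' (1 / 2) y ≤ 2 * X / q := by
    intro q hq
    rw [mem_Icc] at hq
    rw [← hy]
    apply level (1 / 2) hc y y (by omega) _ le_rfl q hq.1
    · have h1 : (q : ℝ) ≤ (y : ℝ) ^ θ := le_trans (by exact_mod_cast hq.2) hQy
      refine h1.trans ?_
      rw [← hL]
      have h2 : (y : ℝ) ^ θ = Real.exp (L * θ) := by
        rw [Real.rpow_def_of_pos hyp, hL]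
      have h3 : (y : ℝ) = Real.exp L := by rw [hL, Real.exp_log hyp]
      rw [h2]
      rw [h3]
      rw [← Real.exp_add]
      apply Real.exp_le_exp.2
      have h4 : L ^ ((1 : ℝ) / 2) = √L := by rw [Real.sqrt_eq_rpow]
      rw [h4]
      have h5 : 0 < 1 - θ := by linarith
      have h6 : 1 / (1 - θ) ≤ √L := by
        apply Real.le_sqrt_of_sq_le
        exact b2
      have h7 : √L * √L = L := Real.mul_self_sqrt (by linarith)
      have h8 : 1 ≤ (1 - θ) * √L := by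
        rw [div_le_iff₀ h5] at h6
        linarith
      have h9 : √L ≤ (1 - θ) * L := by
        have := mul_le_mul_of_nonneg_right h8 (Real.sqrt_nonneg L)
        nlinarith
      linarith
    · calc Real.exp (Real.log y / 2) ≤ Real.exp (Real.log y) := by
            apply Real.exp_le_exp.2
            linarith
        _ = y := Real.exp_log hyp
  -- the size of the moduli
  have hCx : (C : ℝ) * (ℓ ^ (2 * e)) ^ m * (D * Q) ≤ x := by
    have h1 : (C : ℝ) * (ℓ ^ (2 * e)) ^ m * (D * Q) ≤ (C * D * ℓ ^ (2 * e * m)) * (y : ℝ) ^ θ := by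
      rw [← pow_mul]
      calc (C : ℝ) * ℓ ^ (2 * e * m) * (D * Q) = (C * D * ℓ ^ (2 * e * m)) * Q := by ring
        _ ≤ _ := mul_le_mul_of_nonneg_left hQy (by positivity)
    have h2 : (C * D * ℓ ^ (2 * e * m)) ≤ (y : ℝ) ^ ρ / (2 * C₁) := by
      rw [le_div_iff₀ (by positivity)]
      refine le_trans (le_of_eq ?_) b5
      ring
    have h3 : (y : ℝ) ^ ρ / (2 * C₁) * (y : ℝ) ^ θ = (y : ℝ) ^ (1 / ((d : ℝ) + 1)) / (2 * C₁) := by
      have : (y : ℝ) ^ (1 / ((d : ℝ) + 1)) = (y : ℝ) ^ ρ * (y : ℝ) ^ θ := by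
        rw [← Real.rpow_add hyp]; congr 1; rw [hρ]; ring
      rw [this]; ring
    have h4 : (y : ℝ) ≤ (2 * C₁ * x) ^ (d + 1) := by
      have h5 : (X : ℝ) ≤ C₁ * (x : ℝ) ^ (d + 1) := by exact_mod_cast hXx
      have h6 : (1 : ℝ) ≤ 2 * C₁ := by linarith
      calc (y : ℝ) = 2 * X := hyX
        _ ≤ (2 * C₁) * (x : ℝ) ^ (d + 1) := by linarith
        _ ≤ (2 * C₁) ^ (d + 1) * (x : ℝ) ^ (d + 1) := by
            apply mul_le_mul_of_nonneg_right _ (by positivity)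
            exact le_self_pow₀ h6 (by omega)
        _ = _ := by rw [← mul_pow]
    have h5 : (y : ℝ) ^ (1 / ((d : ℝ) + 1)) ≤ 2 * C₁ * x := by
      calc (y : ℝ) ^ (1 / ((d : ℝ) + 1)) ≤ ((2 * C₁ * (x : ℝ)) ^ (d + 1)) ^ (1 / ((d : ℝ) + 1)) :=
            Real.rpow_le_rpow hyp.le h4 (by positivity)
        _ = 2 * C₁ * x := by
            rw [← Real.rpow_natCast, ← Real.rpow_mul (by positivity)]
            push_cast
            rw [mul_one_div_cancel hd1.ne', Real.rpow_one]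
    calc _ ≤ _ := h1
      _ ≤ (y : ℝ) ^ ρ / (2 * C₁) * (y : ℝ) ^ θ := mul_le_mul_of_nonneg_right h2 (by positivity)
      _ = _ := h3
      _ ≤ (2 * C₁ * x) / (2 * C₁) := div_le_div_of_nonneg_right h5 (by positivity)
      _ = x := by field_simp
  have hDQ : D * Q ≤ x := by
    have h1 : (1 : ℝ) ≤ (C : ℝ) * (ℓ ^ (2 * e)) ^ m :=
      one_le_mul_of_one_le_of_one_le hC0 (one_le_pow₀ (one_le_pow₀ hℓ1))
    have h2 : (D : ℝ) * Q ≤ x := by
      refine le_trans ?_ hCx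
      have : (0 : ℝ) ≤ D * Q := by positivity
      nlinarith
    exact_mod_cast h2
  have hXx5 : 5 * D * (X : ℝ) ≤ ((5 * D * C₁ : ℕ) : ℝ) * (x : ℝ) ^ (d + 1) := by
    have h5 : (X : ℝ) ≤ C₁ * (x : ℝ) ^ (d + 1) := by exact_mod_cast hXx
    push_cast
    calc 5 * (D : ℝ) * X ≤ 5 * D * (C₁ * (x : ℝ) ^ (d + 1)) := mul_le_mul_of_nonneg_left h5 (by positivity)
      _ = _ := by ring
  have hmn := hmain D x X (KK' (1 / 2) y) T Q e c₀ N ℓ g hg hD hQ1 hQX hDQ a2 hlev hT1 hTct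
    (by rw [hℓ, hL, hy]) (fun n h1 h2 => by
      obtain ⟨c1, c2, c3, c4⟩ := hN n h1 h2
      exact ⟨c1, c2, c4⟩) hCx hXx5
  -- the two terms
  have t1 : 2 ^ U / Real.log (KK' (1 / 2) y) ^ U + 1 / (T : ℝ) ≤ 2 / ℓ ^ E := by
    have h1 : 1 / (T : ℝ) ≤ 1 / ℓ ^ E := one_div_le_one_div_of_le (by positivity) hTge
    calc _ ≤ 1 / ℓ ^ E + 1 / ℓ ^ E := add_le_add a1 h1
      _ = _ := by ring
  have t5 : ∑ n ∈ Ioc x (2 * x), DF g Q (N n) ≤ x * X * (1 / (C₁ * ℓ ^ (A + B))) := by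
    refine hmn.trans (mul_le_mul_of_nonneg_left ?_ (by positivity))
    calc 64 * (C : ℝ) * ℓ ^ (e * m + 8) * (2 ^ U / Real.log (KK' (1 / 2) y) ^ U + 1 / (T : ℝ)) + 8 * ℓ ^ 7 / ℓ ^ e ≤
        64 * C * ℓ ^ (e * m + 8) * (2 / ℓ ^ E) + 8 * C * ℓ ^ 7 / ℓ ^ e := by
          apply add_le_add (mul_le_mul_of_nonneg_left t1 (by positivity))
          apply div_le_div_of_nonneg_right _ (by positivity)
          apply mul_le_mul_of_nonneg_right _ (by positivity)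
          linarith
      _ = (136 * C * C₁) / (ℓ * (C₁ * ℓ ^ (A + B))) := by
          rw [hE, he, pow_add ℓ ((A + B + 8) * m + 8) (A + B + 1), pow_add ℓ (A + B) 8, pow_add ℓ (A + B) 1]
          field_simp
          norm_num
      _ ≤ ℓ / (ℓ * (C₁ * ℓ ^ (A + B))) := div_le_div_of_nonneg_right b1 (by positivity)
      _ = _ := by field_simp
  -- counting
  obtain ⟨S, hS⟩ : ∃ S, S = (Ioc x (2 * x)).filter fun n => (N n : ℝ) / Real.log (N n) ^ A <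
        Pool.Agent.R311.DEH.D g (N n) ((N n : ℝ) ^ θ) := ⟨_, rfl⟩
  rw [← hS]
  have hlow : ∀ n ∈ S, X / (C₁ * ℓ ^ A) ≤ DF g Q (N n) := by
    intro n hn
    rw [hS, mem_filter, mem_Ioc] at hn
    obtain ⟨⟨hn1, hn2⟩, hn3⟩ := hn
    obtain ⟨h1, h2, h3, h4⟩ := hN n hn1 (by omega)
    have hvX : (N n : ℝ) ≤ X := by exact_mod_cast h2
    have hXC : (X : ℝ) ≤ C₁ * N n := by exact_mod_cast h3
    have hv2 : (2 : ℝ) ≤ N n := by
      have h5 : (C₁ : ℝ) * 2 ≤ C₁ * N n := by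
        rw [hyX] at b4
        linarith
      exact le_of_mul_le_mul_left h5 (by linarith)
    have hv0 : (0 : ℝ) < N n := by linarith
    have hlog0 : 0 < Real.log (N n) := Real.log_pos (by linarith)
    have hlog1 : Real.log (N n) ≤ ℓ := by
      have := Real.log_le_log hv0 (show (N n : ℝ) ≤ y by rw [hyX]; linarith)
      rw [← hL] at this
      linarith
    have h5 : Pool.Agent.R311.DEH.D g (N n) ((N n : ℝ) ^ θ) ≤ DF g Q (N n) := by
      apply D_le_DF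
      rw [hQ]
      apply Nat.floor_le_floor
      exact Real.rpow_le_rpow hv0.le hvX hθ.le
    refine le_trans ?_ (hn3.le.trans h5)
    rw [div_le_div_iff₀ (by positivity) (by positivity)]
    calc (X : ℝ) * Real.log (N n) ^ A ≤ (C₁ * N n) * ℓ ^ A :=
          mul_le_mul hXC (pow_le_pow_left₀ hlog0.le hlog1 _) (by positivity) (by positivity)
      _ = _ := by ring
  have h6 : (S.card : ℝ) * (X / (C₁ * ℓ ^ A)) ≤ x * X * (1 / (C₁ * ℓ ^ (A + B))) := by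
    calc (S.card : ℝ) * (X / (C₁ * ℓ ^ A)) = ∑ n ∈ S, X / (C₁ * ℓ ^ A) := by rw [sum_const, nsmul_eq_mul]
      _ ≤ ∑ n ∈ S, DF g Q (N n) := sum_le_sum hlow
      _ ≤ ∑ n ∈ Ioc x (2 * x), DF g Q (N n) := by
          apply sum_le_sum_of_subset_of_nonneg
          · rw [hS]; exact filter_subset _ _
          · intro j _ _
            unfold DF
            exact sum_nonneg fun q _ => by positivity
      _ ≤ _ := t5
  have h7 : (S.card : ℝ) ≤ x / ℓ ^ B := by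
    have hpos : (0 : ℝ) < X / (C₁ * ℓ ^ A) := by positivity
    rw [← le_div_iff₀ hpos] at h6
    refine h6.trans (le_of_eq ?_)
    rw [pow_add]
    field_simp
  refine h7.trans ?_
  have hx2 : (2 : ℝ) ≤ x := by
    -- `x` is large since `X` is
    by_contra hcon
    push Not at hcon
    have h8 : x = 1 := by
      have : x < 2 := by exact_mod_cast hcon
      omega
    have h9 : 1 ≤ C₁ * (X1 + X2 + X3 + X4 + 1) := Nat.mul_pos (by omega) (by omega)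
    omega
  have hlx : 0 < Real.log x := Real.log_pos (by linarith)
  apply div_le_div_of_nonneg_left hx0.le (by positivity)
  apply pow_le_pow_left₀ hlx.le
  have h8 : Real.log x ≤ Real.log y := Real.log_le_log hx0 (by rw [hyX]; have : (x : ℝ) ≤ X := by exact_mod_cast hxleX
                                                               linarith)
  rw [← hL] at h8
  linarith

end Pool.Agent.Zk46.PV
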