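import Mathlib
import Pool.Agent.Zk46.PV.A7
import Pool.Agent.N193.DE.F

/-!
Almost all values of an integer-valued polynomial: windows and translates.
-/

set_option autoImplicit false

namespace Pool.Agent.Zk46.PV
open Finset Polynomial Filter Topology
open Pool.Agent.R311.DEH
open Pool.Agent.N193.DE (Bad window_card)
open Pool.Agent.N193.PS (log_pow_ev)

lemma int_mult (f : ℚ[X]) : ∃ D : ℕ, 1 ≤ D ∧ ∃ F : ℤ[X], F.map (Int.castRingHom ℚ) = C (D : ℚ) * f := by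
  obtain ⟨b, hbm, hb⟩ := IsLocalization.integerNormalization_spec (nonZeroDivisors ℤ) f
  have hb0 : b ≠ 0 := nonZeroDivisors.ne_zero hbm
  refine ⟨b.natAbs ^ 2, ?_, C b * IsLocalization.integerNormalization (nonZeroDivisors ℤ) f, ?_⟩
  · have : 1 ≤ b.natAbs := Nat.pos_of_ne_zero (by simpa using hb0)
    exact Nat.one_le_pow _ _ this
  · have h2 : ((b.natAbs ^ 2 : ℕ) : ℚ) = (b : ℚ) ^ 2 := by
      have h3 : ((b.natAbs ^ 2 : ℕ) : ℤ) = b ^ 2 := by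
        push_cast
        exact sq_abs _
      have h4 : (((b.natAbs ^ 2 : ℕ) : ℤ) : ℚ) = ((b ^ 2 : ℤ) : ℚ) := by rw [h3]
      rw [Int.cast_natCast, Int.cast_pow] at h4
      exact h4
    have hb' : (IsLocalization.integerNormalization (nonZeroDivisors ℤ) f).map (Int.castRingHom ℚ) = b • f := hb
    rw [Polynomial.map_mul, Polynomial.map_C, hb', h2, zsmul_eq_mul, eq_intCast, sq, C_mul, mul_assoc]
    rfl

lemma eval_real (f : ℚ[X]) (n : ℕ) : (f.map (Rat.castHom ℝ)).eval (n : ℝ) = ((f.eval (n : ℚ) : ℚ) : ℝ) := by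
  have h : ((n : ℕ) : ℝ) = (Rat.castHom ℝ) (n : ℚ) := by simp
  rw [h, eval_map, eval₂_hom]
  rfl

lemma poly_asymp (f : ℚ[X]) (hl : 0 < f.leadingCoeff) : ∃ x₁ : ℕ, ∀ n : ℕ, x₁ ≤ n →
    (9 / 10) * ((f.leadingCoeff : ℝ) * (n : ℝ) ^ f.natDegree) ≤ ((f.eval (n : ℚ) : ℚ) : ℝ) ∧
    ((f.eval (n : ℚ) : ℚ) : ℝ) ≤ (11 / 10) * ((f.leadingCoeff : ℝ) * (n : ℝ) ^ f.natDegree) := by
  obtain ⟨P, hP⟩ : ∃ P : ℝ[X], P = f.map (Rat.castHom ℝ) := ⟨_, rfl⟩
  have hlc : P.leadingCoeff = (f.leadingCoeff : ℝ) := by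
    rw [hP, leadingCoeff_map]; rfl
  have hnd : P.natDegree = f.natDegree := by rw [hP, natDegree_map]
  have h := P.isEquivalent_atTop_lead
  rw [Asymptotics.IsEquivalent, Asymptotics.isLittleO_iff] at h
  have h1 := h (c := 1 / 10) (by norm_num)
  have h2 := (tendsto_natCast_atTop_atTop (R := ℝ)).eventually h1
  obtain ⟨x₁, hx₁⟩ := eventually_atTop.1 h2
  refine ⟨x₁, fun n hn => ?_⟩
  have h3 := hx₁ n hn
  rw [Pi.sub_apply, hlc, hnd, hP, eval_real] at h3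
  have h4 : 0 ≤ (f.leadingCoeff : ℝ) * (n : ℝ) ^ f.natDegree := by
    have : (0 : ℝ) < f.leadingCoeff := by exact_mod_cast hl
    positivity
  rw [Real.norm_of_nonneg h4, Real.norm_eq_abs, abs_le] at h3
  constructor <;> linarith [h3.1, h3.2]

open Classical in
theorem poly_main (f : ℚ[X]) (hd : 2 ≤ f.natDegree) (hl : 0 < f.leadingCoeff)
    (hf : ∀ n : ℕ, ∃ z : ℤ, f.eval (n : ℚ) = z) (θ : ℝ) (hθ : 0 < θ) (hθ1 : θ < 1 / f.natDegree) (A W B K₀ : ℕ) :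
    ∃ x₀ : ℕ, ∀ x : ℕ, x₀ ≤ x → ∀ c₀ : ℤ, -((f.eval (x : ℚ) : ℚ) : ℝ) / 4 ≤ c₀ →
      (c₀ : ℝ) ≤ K₀ * ((f.eval (x : ℚ) : ℚ) : ℝ) →
      (((Ioc x (2 * x)).filter fun n : ℕ => ∃ N : ℕ, |(N : ℝ) - (c₀ + ((f.eval (n : ℚ) : ℚ) : ℝ))| ≤ Real.log x ^ W ∧
        Bad A θ N).card : ℝ) ≤ x / Real.log x ^ B := by
  obtain ⟨D, hD, F, hF⟩ := int_mult f
  choose z hz using hf
  have hD0 : (0 : ℚ) < D := by exact_mod_cast hD
  obtain ⟨d, hd'⟩ : ∃ d, f.natDegree = d + 1 := ⟨f.natDegree - 1, by omega⟩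
  have hinj : Function.Injective (Int.castRingHom ℚ) := RingHom.injective_int _
  have hFd : F.natDegree = d + 1 := by
    rw [← hd', ← natDegree_map_eq_of_injective hinj F, hF]
    exact natDegree_C_mul hD0.ne'
  have hFl : 0 < F.leadingCoeff := by
    have h1 : (Int.castRingHom ℚ) F.leadingCoeff = D * f.leadingCoeff := by
      rw [← leadingCoeff_map_of_injective hinj F, hF, leadingCoeff_mul, leadingCoeff_C]
    have h2 : (0 : ℚ) < (Int.castRingHom ℚ) F.leadingCoeff := by rw [h1]; positivity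
    rw [eq_intCast] at h2
    exact_mod_cast h2
  have hFe : ∀ n : ℕ, (D : ℤ) * z n = F.eval (n : ℤ) := by
    intro n
    have h1 : ((F.eval (n : ℤ) : ℤ) : ℚ) = (F.map (Int.castRingHom ℚ)).eval (n : ℚ) := by
      have : ((n : ℕ) : ℚ) = (Int.castRingHom ℚ) (n : ℤ) := by simp
      rw [this, eval_map, eval₂_hom]
      rfl
    rw [hF, eval_mul, eval_C, hz n] at h1
    exact_mod_cast h1.symm
  have hfz : ∀ n : ℕ, ((f.eval (n : ℚ) : ℚ) : ℝ) = z n := by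
    intro n; rw [hz n]; simp
  obtain ⟨x₁, hx₁⟩ := poly_asymp f hl
  rw [hd'] at hx₁ hθ1
  obtain ⟨a, ha⟩ : ∃ a : ℝ, a = f.leadingCoeff := ⟨_, rfl⟩
  have ha0 : 0 < a := by rw [ha]; exact_mod_cast hl
  rw [← ha] at hx₁
  obtain ⟨M, hM⟩ : ∃ M : ℕ, M = 2 * 3 ^ (d + 1) + K₀ + 1 := ⟨_, rfl⟩
  obtain ⟨C₁, hC₁⟩ : ∃ C₁ : ℕ, C₁ = 2 * (M + 1) + ⌈2 / a⌉₊ + ⌈2 * a * (M + 1)⌉₊ := ⟨_, rfl⟩
  have hC1 : (2 : ℝ) * (M + 1) ≤ C₁ := by
    rw [hC₁]; push_cast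
    have h1 : (0 : ℝ) ≤ (⌈2 / a⌉₊ : ℝ) := Nat.cast_nonneg _
    have h2 : (0 : ℝ) ≤ (⌈2 * a * (M + 1)⌉₊ : ℝ) := Nat.cast_nonneg _
    linarith
  have hC2 : 2 / a ≤ C₁ := by
    rw [hC₁]; push_cast
    have h1 : 2 / a ≤ (⌈2 / a⌉₊ : ℝ) := Nat.le_ceil _
    have h2 : (0 : ℝ) ≤ (⌈2 * a * (M + 1)⌉₊ : ℝ) := Nat.cast_nonneg _
    have h3 : (0 : ℝ) ≤ M := Nat.cast_nonneg _
    linarith
  have hC3 : 2 * a * (M + 1) ≤ C₁ := by
    rw [hC₁]; push_cast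
    have h1 : 2 * a * (M + 1) ≤ (⌈2 * a * (M + 1)⌉₊ : ℝ) := Nat.le_ceil _
    have h2 : (0 : ℝ) ≤ (⌈2 / a⌉₊ : ℝ) := Nat.cast_nonneg _
    have h3 : (0 : ℝ) ≤ M := Nat.cast_nonneg _
    linarith
  obtain ⟨x₂, hx₂⟩ := main_P F d (by omega) hFd hFl D hD C₁ (by omega) θ hθ (by push_cast at hθ1; exact hθ1) A (B + W + 1)
  have hev : ∀ᶠ x : ℕ in atTop, 20 * (1 + Real.log x) ^ W ≤ (9 / 10) * (a * (x : ℝ) ^ (d + 1)) ∧ 6 ≤ Real.log x ∧
      (1 : ℝ) ≤ x ∧ 1 ≤ (9 / 10) * (a * (x : ℝ) ^ (d + 1)) := by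
    have e1 := log_pow_ev W (20 * (10 / (9 * a))) 1 (by positivity) one_pos
    have e2 := Real.tendsto_log_atTop.eventually_ge_atTop 6
    have e3 := eventually_ge_atTop (1 : ℝ)
    have e4 := eventually_ge_atTop (10 / (9 * a) : ℝ)
    have := (tendsto_natCast_atTop_atTop (R := ℝ)).eventually (e1.and (e2.and (e3.and e4)))
    filter_upwards [this] with x hx
    obtain ⟨h1, h2, h3, h4⟩ := hx
    have h5 : (x : ℝ) ≤ (x : ℝ) ^ (d + 1) := le_self_pow₀ h3 (by omega)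
    rw [Real.rpow_one] at h1
    refine ⟨?_, h2, h3, ?_⟩
    · have h6 : 20 * (10 / (9 * a)) * (1 + Real.log x) ^ W ≤ (x : ℝ) ^ (d + 1) := h1.trans h5
      have h7 := mul_le_mul_of_nonneg_left h6 (by positivity : 0 ≤ 9 / 10 * a)
      have h8 : 9 / 10 * a * (20 * (10 / (9 * a)) * (1 + Real.log x) ^ W) = 20 * (1 + Real.log x) ^ W := by
        field_simp
      rw [h8] at h7
      linarith
    · have h6 : 10 / (9 * a) ≤ (x : ℝ) ^ (d + 1) := h4.trans h5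
      have h7 := mul_le_mul_of_nonneg_left h6 (by positivity : 0 ≤ 9 / 10 * a)
      have h8 : 9 / 10 * a * (10 / (9 * a)) = 1 := by field_simp
      rw [h8] at h7
      linarith
  obtain ⟨m₁, hm₁⟩ := eventually_atTop.1 hev
  refine ⟨m₁ + x₁ + x₂, fun x hx c₀ hc1 hc2 => ?_⟩
  obtain ⟨e1, e2, e3, e4⟩ := hm₁ x (by omega)
  have hx1 : 1 ≤ x := by exact_mod_cast e3
  have hx0 : (0 : ℝ) < x := by linarith
  have hpow : Real.log x ^ W ≤ (1 + Real.log x) ^ W := pow_le_pow_left₀ (by linarith) (by linarith) _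
  have hone : 1 ≤ Real.log x ^ W := one_le_pow₀ (by linarith)
  obtain ⟨H, hH⟩ : ∃ H, H = ⌊Real.log x ^ W⌋₊ := ⟨_, rfl⟩
  have hHle : (H : ℝ) ≤ Real.log x ^ W := by rw [hH]; exact Nat.floor_le (by linarith)
  obtain ⟨y, hy⟩ : ∃ y : ℝ, y = ((f.eval (x : ℚ) : ℚ) : ℝ) := ⟨_, rfl⟩
  obtain ⟨u, hu⟩ : ∃ u : ℝ, u = a * (x : ℝ) ^ (d + 1) := ⟨_, rfl⟩
  have hu0 : 0 < u := by rw [hu]; positivity
  obtain ⟨hy1, hy2⟩ := hx₁ x (by omega)
  rw [← hy, ← hu] at hy1 hy2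
  rw [← hy] at hc1 hc2
  rw [← hu] at e1 e4
  have hy0 : 1 ≤ y := by linarith
  have hHy : 20 * (H : ℝ) ≤ y := by linarith
  have hzn : ∀ n : ℕ, x < n → n ≤ 3 * x → (9 / 10) * u ≤ z n ∧ (z n : ℝ) ≤ (11 / 10) * (3 ^ (d + 1) * u) := by
    intro n hn1 hn2
    obtain ⟨h1, h2⟩ := hx₁ n (by omega)
    rw [hfz] at h1 h2
    have h3 : (x : ℝ) ≤ n := by exact_mod_cast hn1.le
    have h4 : (n : ℝ) ≤ 3 * x := by exact_mod_cast hn2
    have h5 : (x : ℝ) ^ (d + 1) ≤ (n : ℝ) ^ (d + 1) := pow_le_pow_left₀ (by positivity) h3 _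
    have h6 : (n : ℝ) ^ (d + 1) ≤ (3 * x) ^ (d + 1) := pow_le_pow_left₀ (by positivity) h4 _
    rw [mul_pow] at h6
    constructor
    · refine le_trans ?_ h1
      rw [hu]
      exact mul_le_mul_of_nonneg_left (mul_le_mul_of_nonneg_left h5 ha0.le) (by norm_num)
    · refine h2.trans ?_
      rw [hu]
      refine mul_le_mul_of_nonneg_left ?_ (by norm_num)
      calc a * (n : ℝ) ^ (d + 1) ≤ a * (3 ^ (d + 1) * (x : ℝ) ^ (d + 1)) := mul_le_mul_of_nonneg_left h6 ha0.le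
        _ = _ := by ring
  obtain ⟨Y, hY⟩ : ∃ Y : ℕ, Y = ⌈(M : ℝ) * y⌉₊ := ⟨_, rfl⟩
  have hM0 : (0 : ℝ) ≤ M := Nat.cast_nonneg _
  have hM1 : (1 : ℝ) ≤ M := by rw [hM]; push_cast; linarith [(Nat.cast_nonneg K₀ : (0 : ℝ) ≤ K₀), pow_pos (show (0 : ℝ) < 3 by norm_num) (d + 1)]
  have hY1 : (M : ℝ) * y ≤ Y := by rw [hY]; exact Nat.le_ceil _
  have hY2 : (Y : ℝ) ≤ (M + 1) * y := by
    have : (Y : ℝ) < M * y + 1 := by rw [hY]; exact Nat.ceil_lt_add_one (by positivity)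
    linarith
  let w : ℤ → ℕ → ℕ := fun b n => ((c₀ + b : ℤ) + z n).toNat
  have hmain := window_card (Ioc x (2 * x)) H w A θ (x / Real.log x ^ (B + W + 1)) (by
    intro b hb g hg
    rw [mem_Icc] at hb
    have hb1 : -(H : ℝ) ≤ b := by exact_mod_cast hb.1
    have hb2 : (b : ℝ) ≤ H := by exact_mod_cast hb.2
    refine hx₂ x (by omega) Y ?_ ?_ (c₀ + b) (w b) (fun n hn1 hn2 => ?_) g hg
    · have h1 : (x : ℝ) ^ (d + 1) = u / a := by rw [hu]; field_simp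
      have h2 : (x : ℝ) ^ (d + 1) ≤ (C₁ * Y : ℝ) := by
        rw [h1]
        have h3 : u / a ≤ 2 / a * y := by
          rw [div_mul_eq_mul_div]
          exact div_le_div_of_nonneg_right (by linarith) ha0.le
        have h4 : y ≤ Y := by
          refine le_trans ?_ hY1
          exact le_mul_of_one_le_left (by linarith) hM1
        calc u / a ≤ 2 / a * y := h3
          _ ≤ C₁ * Y := mul_le_mul hC2 h4 (by linarith) (by positivity)
      exact_mod_cast h2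
    · have h2 : (Y : ℝ) ≤ C₁ * (x : ℝ) ^ (d + 1) := by
        calc (Y : ℝ) ≤ (M + 1) * y := hY2
          _ ≤ (M + 1) * (11 / 10 * u) := mul_le_mul_of_nonneg_left hy2 (by positivity)
          _ ≤ (M + 1) * (2 * u) := mul_le_mul_of_nonneg_left (by linarith) (by positivity)
          _ = (2 * a * (M + 1)) * (x : ℝ) ^ (d + 1) := by rw [hu]; ring
          _ ≤ _ := mul_le_mul_of_nonneg_right hC3 (by positivity)
      exact_mod_cast h2
    · obtain ⟨h1, h2⟩ := hzn n hn1 hn2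
      have h3 : y / 2 ≤ (c₀ : ℝ) + b + z n := by linarith
      have h4 : (c₀ : ℝ) + b + z n ≤ M * y := by
        rw [hM]
        push_cast
        have h5 : (0 : ℝ) ≤ 3 ^ (d + 1) := by positivity
        have h6 : (3 : ℝ) ^ (d + 1) * u ≤ 3 ^ (d + 1) * (10 / 9 * y) := mul_le_mul_of_nonneg_left (by linarith) h5
        have h7 : (0 : ℝ) ≤ 3 ^ (d + 1) * y := by positivity
        nlinarith
      have h5 : (0 : ℤ) ≤ c₀ + b + z n := by
        have : (0 : ℝ) ≤ ((c₀ + b + z n : ℤ) : ℝ) := by push_cast; linarith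
        exact_mod_cast this
      have h6 : ((w b n : ℕ) : ℤ) = c₀ + b + z n := Int.toNat_of_nonneg h5
      have h7 : ((w b n : ℕ) : ℝ) = (c₀ : ℝ) + b + z n := by exact_mod_cast h6
      refine ⟨?_, ?_, ?_, ?_⟩
      · have : (0 : ℝ) < w b n := by rw [h7]; linarith
        have h8 : 0 < w b n := by exact_mod_cast this
        omega
      · have : (w b n : ℝ) ≤ Y := by rw [h7]; linarith
        exact_mod_cast this
      · have : (Y : ℝ) ≤ C₁ * w b n := by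
          rw [h7]
          calc (Y : ℝ) ≤ (M + 1) * y := hY2
            _ = (2 * (M + 1)) * (y / 2) := by ring
            _ ≤ C₁ * (c₀ + b + z n) := mul_le_mul hC1 h3 (by linarith) (by positivity)
        exact_mod_cast this
      · rw [h6, mul_add, hFe n])
  have hsub : ((Ioc x (2 * x)).filter fun n : ℕ => ∃ N : ℕ, |(N : ℝ) - (c₀ + ((f.eval (n : ℚ) : ℚ) : ℝ))| ≤
      Real.log x ^ W ∧ Bad A θ N) ⊆
      (Ioc x (2 * x)).filter fun n => ∃ b ∈ Icc (-(H : ℤ)) H, Bad A θ (w b n) := by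
    intro n hn
    rw [mem_filter] at hn ⊢
    obtain ⟨hn1, N, hN, hb⟩ := hn
    rw [hfz] at hN
    refine ⟨hn1, (N : ℤ) - (c₀ + z n), ?_, ?_⟩
    · rw [mem_Icc]
      have h1 : (((N : ℤ) - (c₀ + z n)).natAbs : ℝ) ≤ Real.log x ^ W := by
        rw [Nat.cast_natAbs]
        push_cast
        exact hN
      have h2 : ((N : ℤ) - (c₀ + z n)).natAbs ≤ H := by rw [hH]; exact Nat.le_floor h1
      omega
    · have h3 : w ((N : ℤ) - (c₀ + z n)) n = N := by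
        show ((c₀ + ((N : ℤ) - (c₀ + z n)) : ℤ) + z n).toNat = N
        omega
      rwa [h3]
  obtain ⟨ℓ, hℓ⟩ : ∃ ℓ, ℓ = Real.log x := ⟨_, rfl⟩
  have hℓ0 : 0 < ℓ := by rw [hℓ]; linarith
  have hfin : ((2 * H + 1) * (2 * (x / ℓ ^ (B + W + 1))) : ℝ) ≤ x / ℓ ^ B := by
    rw [← hℓ] at hHle hone e2
    have h2 : (2 * (H : ℝ) + 1) ≤ 3 * ℓ ^ W := by linarith
    calc ((2 * H + 1) * (2 * (x / ℓ ^ (B + W + 1))) : ℝ) ≤
          (3 * ℓ ^ W) * (2 * (x / ℓ ^ (B + W + 1))) :=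
          mul_le_mul_of_nonneg_right h2 (by positivity)
      _ = x / ℓ ^ B * (6 / ℓ) := by
          rw [pow_add, pow_add, pow_one]
          field_simp
          norm_num
      _ ≤ x / ℓ ^ B * 1 := by
          apply mul_le_mul_of_nonneg_left _ (by positivity)
          rw [div_le_one hℓ0]
          linarith
      _ = _ := mul_one _
  rw [← hℓ] at hmain hsub ⊢
  refine le_trans ?_ (hmain.trans hfin)
  exact_mod_cast card_le_card hsub

end Pool.Agent.Zk46.PV
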